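import Pool.Agent.Work.MP_1aab6d_thin_helper61.Kill

/-!
# Abstract selection
-/

set_option autoImplicit false

namespace UnfD

open Classical UnfS

variable {V T : Type*}

/-- Secured partial colourings. -/
def ASec (P : Set V) (Sv : (V → Bool) → T → V → Prop) (z0 : V → Bool) (S : Set V)
    (τ : V → Bool) : Prop :=
  S ⊆ P ∧ ∀ z : V → Bool, (∀ v, v ∉ P → z v = z0 v) → (∀ v ∈ S, z v = τ v) →
    ∀ u ∈ S, {t | Sv z t u}.Infinite

/-- The dichotomy: if the colours of `S` are given by `z`, then either after a flip of `u` the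
gadget `t` serves all vertices of a finite part `Y` of `S` containing `u`, or the service of `u` can
be guaranteed by finitely many further colours. -/
def Dich (Sv : (V → Bool) → T → V → Prop) (t : T) (u : V) : Prop :=
  ∀ (S : Set V) (z : V → Bool), u ∈ S →
    (∃ Y : Set V, Y.Finite ∧ u ∈ Y ∧ Y ⊆ S ∧
      ∀ z' : V → Bool, (∀ v ∈ Y, z' v = fp u z v) → ∀ p ∈ Y, Sv z' t p) ∨
    ∃ (E : Set V) (f : V → Bool), E.Finite ∧
      ∀ z' : V → Bool, (∀ v ∈ S, z' v = z v) → (∀ v ∈ E, v ∉ S → z' v = f v) → Sv z' t u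

section

variable {P : Set V} {Sv : (V → Bool) → T → V → Prop} {z0 : V → Bool}

theorem exists_ASec : ∃ S τ, ASec P Sv z0 S τ ∧
    ∀ S' τ', ASec P Sv z0 S' τ' → S ⊆ S' → (∀ v ∈ S, τ' v = τ v) → S' ⊆ S := by
  let α := {p : Set V × (V → Bool) // ASec P Sv z0 p.1 p.2}
  let r : α → α → Prop := fun p q => p.1.1 ⊆ q.1.1 ∧ ∀ v ∈ p.1.1, q.1.2 v = p.1.2 v
  have hz : ∃ m : α, ∀ a, r m a → r a m := by
    refine exists_maximal_of_chains_bounded (r := r) ?_ ?_
    · intro C hC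
      rcases C.eq_empty_or_nonempty with rfl | hCne
      · refine ⟨⟨(∅, fun _ => false), ?_, ?_⟩, by simp⟩
        · intro v hv; exact absurd hv (Set.notMem_empty _)
        · intro c _ _ v hv; exact absurd hv (Set.notMem_empty _)
      set S : Set V := ⋃ p ∈ C, p.1.1 with hS
      let τ : V → Bool := fun v => if h : ∃ p ∈ C, v ∈ p.1.1 then h.choose.1.2 v else false
      have hτ : ∀ p ∈ C, ∀ v ∈ p.1.1, τ v = p.1.2 v := by
        intro p hp v hv
        have h : ∃ p ∈ C, v ∈ p.1.1 := ⟨p, hp, hv⟩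
        have e : τ v = h.choose.1.2 v := dif_pos h
        rw [e]
        have h1 := h.choose_spec
        by_cases hpq : h.choose = p
        · rw [hpq]
        · rcases hC h1.1 hp hpq with h2 | h2
          · exact (h2.2 v h1.2).symm
          · exact h2.2 v hv
      have hsub : ∀ p ∈ C, p.1.1 ⊆ S := fun p hp => Set.subset_biUnion_of_mem (u := fun p : α => p.1.1) hp
      have hmem : ∀ v ∈ S, ∃ p ∈ C, v ∈ p.1.1 := fun v hv => by simpa [hS] using hv
      refine ⟨⟨(S, τ), ?_, ?_⟩, fun p hp => ⟨hsub p hp, hτ p hp⟩⟩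
      · intro v hv
        obtain ⟨p, _, hpv⟩ := hmem v hv
        exact p.2.1 hpv
      · intro z he0 he v hv
        obtain ⟨p, hp, hpv⟩ := hmem v hv
        exact p.2.2 z he0 (fun w hw => (he w (hsub p hp hw)).trans (hτ p hp w hw)) v hpv
    · intro a b c hab hbc
      exact ⟨hab.1.trans hbc.1, fun v hv => (hbc.2 v (hab.1 hv)).trans (hab.2 v hv)⟩
  obtain ⟨m, hm⟩ := hz
  exact ⟨m.1.1, m.1.2, m.2, fun S' τ' h1 h2 h3 => (hm ⟨(S', τ'), h1⟩ ⟨h2, h3⟩).1⟩

/-- Selection. -/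
theorem asel [Countable V] [Countable T] {J : V → Set T}
    (hD : ∀ u ∈ P, ∀ t ∈ J u, Dich Sv t u) (hJ : ∀ u ∈ P, (J u).Infinite) (z0 : V → Bool) :
    ∃ z : V → Bool, (∀ v, v ∉ P → z v = z0 v) ∧ ∀ u ∈ P, {t | Sv z t u}.Infinite := by
  obtain ⟨S, τ, hS, hM⟩ := exists_ASec (P := P) (Sv := Sv) (z0 := z0)
  let R : Set V := {v | v ∈ P ∧ v ∉ S}
  -- the colouring determined by a stage
  let gz : Set V × (V → Bool) → V → Bool := fun s v =>
    if v ∈ S then τ v else if v ∈ P then s.2 v else z0 v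
  have gS : ∀ s, ∀ v ∈ S, gz s v = τ v := fun s v hv => if_pos hv
  have gP : ∀ s v, v ∉ P → gz s v = z0 v := fun s v hv => by
    have hvS : v ∉ S := fun h => hv (hS.1 h)
    show (if v ∈ S then τ v else if v ∈ P then s.2 v else z0 v) = z0 v
    rw [if_neg hvS, if_neg hv]
  have gR : ∀ s, ∀ v ∈ R, gz s v = s.2 v := fun s v hv => by
    show (if v ∈ S then τ v else if v ∈ P then s.2 v else z0 v) = s.2 v
    rw [if_neg hv.2, if_pos hv.1]
  obtain ⟨c, hc⟩ := fuse (T := R × Finset T) (fun s => s.1.Finite ∧ s.1 ⊆ R)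
    (s0 := (∅, fun _ => false)) ⟨Set.finite_empty, Set.empty_subset _⟩
    (fun x s => s.1 ⊆ R ∧ ∃ t, t ∉ x.2 ∧ ∀ z' : V → Bool, (∀ v, v ∉ P → z' v = z0 v) →
      (∀ v ∈ S, z' v = τ v) → (∀ v ∈ s.1, z' v = s.2 v) → Sv z' t x.1) (by
    rintro ⟨D0, z⟩ ⟨hD0, hDR0⟩ ⟨⟨u, hu⟩, Ψ⟩
    dsimp only at hD0 hDR0
    -- add `u`
    let D : Set V := insert u D0
    have hDf : D.Finite := hD0.insert u
    have hDR : D ⊆ R := by
      rintro v (rfl | hv)
      · exact hu
      · exact hDR0 hv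
    have huD : u ∈ D := Set.mem_insert _ _
    let SS : Set V := {v | v ∈ D ∨ v ∈ S ∨ v ∉ P}
    let zz : V → Bool := gz (D, z)
    have zS : ∀ v ∈ S, zz v = τ v := fun v hv => gS _ v hv
    have zP : ∀ v, v ∉ P → zz v = z0 v := fun v hv => gP _ v hv
    have zR : ∀ v ∈ R, zz v = z v := fun v hv => gR _ v hv
    by_contra hcon
    push Not at hcon
    -- the second alternative fails for almost all gadgets
    have h2 : ∀ t ∈ J u, t ∉ Ψ → ∃ Y : Set V, Y.Finite ∧ u ∈ Y ∧ Y ⊆ SS ∧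
        ∀ z' : V → Bool, (∀ v ∈ Y, z' v = fp u zz v) → ∀ p ∈ Y, Sv z' t p := by
      intro t ht htΨ
      rcases hD u hu.1 t ht SS zz (Or.inl huD) with h | ⟨E, f, hE, hEf⟩
      · exact h
      exfalso
      let z1 : V → Bool := fun v => if v ∈ D then z v else f v
      have hz1 : ∀ v ∈ D, z1 v = z v := fun v hv => if_pos hv
      have hz1' : ∀ v, v ∉ D → z1 v = f v := fun v hv => if_neg hv
      obtain ⟨z', g1, g2, g3, g4⟩ := hcon (D ∪ (E ∩ R), z1)
        ⟨hDf.union (hE.subset Set.inter_subset_left),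
          Set.union_subset hDR Set.inter_subset_right⟩
        ⟨(Set.subset_insert _ _).trans Set.subset_union_left, fun v hv => hz1 v (Or.inr hv)⟩
        (Set.union_subset hDR Set.inter_subset_right) t htΨ
      refine g4 (hEf z' ?_ ?_)
      · rintro v (hv | hv | hv)
        · exact (g3 v (Or.inl hv)).trans ((hz1 v hv).trans (zR v (hDR hv)).symm)
        · exact (g2 v hv).trans (zS v hv).symm
        · exact (g1 v hv).trans (zP v hv).symm
      · intro v hvE hvS
        have hvD : v ∉ D := fun h => hvS (Or.inl h)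
        have hvR : v ∈ R := ⟨by_contra fun h => hvS (Or.inr (Or.inr h)),
          fun h => hvS (Or.inr (Or.inl h))⟩
        exact (g3 v (Or.inr ⟨hvE, hvR⟩)).trans (hz1' v hvD)
    choose! Y hYf hYu hYS hYs using h2
    have hinf : ((J u) \ (Ψ : Set T)).Infinite := (hJ u hu.1).sdiff Ψ.finite_toSet
    obtain ⟨Y0, hY0D, hY0⟩ : ∃ Y0 : Set V, Y0 ⊆ D ∧
        {t | t ∈ (J u) \ (Ψ : Set T) ∧ Y t ∩ D = Y0}.Infinite := by
      by_contra hcon'
      push Not at hcon'
      refine hinf ((hDf.finite_subsets.biUnion (t := fun Y0 => {t | t ∈ (J u) \ (Ψ : Set T) ∧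
        Y t ∩ D = Y0}) fun Y0 hY0 => hcon' Y0 hY0).subset fun t ht => ?_)
      exact Set.mem_biUnion (show Y t ∩ D ∈ {b | b ⊆ D} from Set.inter_subset_right) ⟨ht, rfl⟩
    have huY0 : u ∈ Y0 := by
      obtain ⟨t, ht, hte⟩ := hY0.nonempty
      rw [← hte]
      exact ⟨hYu t ht.1 ht.2, huD⟩
    -- enlarge the secured set
    let τ' : V → Bool := fun v => if v ∈ S then τ v else fp u zz v
    have t1 : ∀ v ∈ S, τ' v = τ v := fun v hv => if_pos hv
    have t2 : ∀ v, v ∉ S → τ' v = fp u zz v := fun v hv => if_neg hv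
    have hle : S ∪ Y0 ⊆ S := by
      refine hM (S ∪ Y0) τ' ⟨?_, ?_⟩ Set.subset_union_left t1
      · rintro v (hv | hv)
        · exact hS.1 hv
        · exact (hDR (hY0D hv)).1
      · intro z' hz0 hz' w hw
        by_cases hwS : w ∈ S
        · exact hS.2 z' hz0 (fun v hv => (hz' v (Or.inl hv)).trans (t1 v hv)) w hwS
        · have hwY : w ∈ Y0 := hw.resolve_left hwS
          refine hY0.mono ?_
          rintro t ⟨ht, hte⟩
          refine hYs t ht.1 ht.2 z' (fun v hv => ?_) w (by rw [← hte] at hwY; exact hwY.1)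
          rcases hYS t ht.1 ht.2 hv with h | h | h
          · have hvY : v ∈ Y0 := by rw [← hte]; exact ⟨hv, h⟩
            rw [hz' v (Or.inr hvY), t2 v (hDR h).2]
          · have hvu : v ≠ u := by rintro rfl; exact hu.2 h
            rw [fp_ne _ hvu, hz' v (Or.inl h), t1 v h, zS v h]
          · have hvu : v ≠ u := by rintro rfl; exact h hu.1
            rw [fp_ne _ hvu, hz0 v h, zP v h]
    exact hu.2 (hle (Or.inr huY0)))
  refine ⟨gz (R, c), gP _, fun u hu => ?_⟩
  by_cases huS : u ∈ S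
  · exact hS.2 _ (gP _) (gS _) u huS
  intro hfin
  obtain ⟨s, ⟨h0, t, h1, h2⟩, hs⟩ := hc (⟨u, hu, huS⟩, hfin.toFinset)
  refine h1 (hfin.mem_toFinset.2 ?_)
  exact h2 _ (gP _) (gS _) fun v hv => by rw [gR _ v (h0 hv)]; exact hs v hv

end

end UnfD
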