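import Pool.Agent.Work.MP_1aab6d_thin_helper61.Asel

/-!
# Abstract selection, relative to finite sets
-/

set_option autoImplicit false

namespace UnfD

open Classical UnfS

variable {V T : Type*}

/-- The dichotomy relative to the finite set `E`: if the colours of the vertices in `S` and `E` are
given by `z`, then either there are a non-empty part `Y` of `E` outside `S` and colours `f` for
which the gadget `t` serves all vertices of `Y`, whatever the colours of the vertices outside `S`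
and `Y` are, or the service of `u` can be guaranteed by finitely many further colours. -/
def DichE (Sv : (V → Bool) → T → V → Prop) (t : T) (u : V) (E : Set V) : Prop :=
  ∀ (S : Set V) (z : V → Bool), u ∉ S →
    (∃ (Y : Set V) (f : V → Bool), Y ⊆ E \ S ∧ Y.Nonempty ∧
      ∀ z' : V → Bool, (∀ v ∈ S, z' v = z v) → (∀ v ∈ Y, z' v = f v) → ∀ p ∈ Y, Sv z' t p) ∨
    ∃ (E' : Set V) (f : V → Bool), E'.Finite ∧
      ∀ z' : V → Bool, (∀ v, v ∈ S ∨ v ∈ E → z' v = z v) →
        (∀ v ∈ E', v ∉ S → v ∉ E → z' v = f v) → Sv z' t u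

lemma Dich.dichE {Sv : (V → Bool) → T → V → Prop} {t : T} {u : V} (h : Dich Sv t u) {E : Set V}
    (hu : u ∈ E) : DichE Sv t u E := by
  intro S z huS
  rcases h {v | v ∈ S ∨ v ∈ E} z (Or.inr hu) with ⟨Y, -, h2, h3, h4⟩ | ⟨E', f, h1, h2⟩
  · refine Or.inl ⟨Y \ S, fp u z, ?_, ⟨u, h2, huS⟩, fun z' g1 g2 p hp => ?_⟩
    · rintro v ⟨hv, hvS⟩
      exact ⟨(h3 hv).resolve_left hvS, hvS⟩
    · refine h4 z' (fun v hv => ?_) p hp.1
      by_cases hvS : v ∈ S
      · rw [g1 v hvS, fp_ne]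
        rintro rfl
        exact huS hvS
      · exact g2 v ⟨hv, hvS⟩
  · refine Or.inr ⟨E', f, h1, fun z' g1 g2 => h2 z' (fun v hv => g1 v hv) fun v hv hn => ?_⟩
    exact g2 v hv (fun h => hn (Or.inl h)) fun h => hn (Or.inr h)

/-- Selection. -/
theorem asel2 [Countable V] [Countable T] {P : Set V} {Sv : (V → Bool) → T → V → Prop}
    (hJ : ∀ u ∈ P, ∀ E₀ : Set V, E₀.Finite → E₀ ⊆ P → ∃ E : Set V, E.Finite ∧ E₀ ⊆ E ∧
      {t | DichE Sv t u E}.Infinite) (z0 : V → Bool) :
    ∃ z : V → Bool, (∀ v, v ∉ P → z v = z0 v) ∧ ∀ u ∈ P, {t | Sv z t u}.Infinite := by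
  obtain ⟨S, τ, hS, hM⟩ := exists_ASec (P := P) (Sv := Sv) (z0 := z0)
  let R : Set V := {v | v ∈ P ∧ v ∉ S}
  -- the colouring determined by a stage
  let gz : Set V × (V → Bool) → V → Bool := fun s v =>
    if v ∈ S then τ v else if v ∈ P then s.2 v else z0 v
  have gS : ∀ s, ∀ v ∈ S, gz s v = τ v := fun s v hv => if_pos hv
  have gP : ∀ s v, v ∉ P → gz s v = z0 v := fun s v hv => by
    have hvS : v ∉ S := fun h => hv (hS.1 h)
    show (if v ∈ S then τ v else if v ∈ P then s.2 v else z0 v) = z0 v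
    rw [if_neg hvS, if_neg hv]
  have gR : ∀ s, ∀ v ∈ R, gz s v = s.2 v := fun s v hv => by
    show (if v ∈ S then τ v else if v ∈ P then s.2 v else z0 v) = s.2 v
    rw [if_neg hv.2, if_pos hv.1]
  obtain ⟨c, hc⟩ := fuse (T := R × Finset T) (fun s => s.1.Finite ∧ s.1 ⊆ R)
    (s0 := (∅, fun _ => false)) ⟨Set.finite_empty, Set.empty_subset _⟩
    (fun x s => s.1 ⊆ R ∧ ∃ t, t ∉ x.2 ∧ ∀ z' : V → Bool, (∀ v, v ∉ P → z' v = z0 v) →
      (∀ v ∈ S, z' v = τ v) → (∀ v ∈ s.1, z' v = s.2 v) → Sv z' t x.1) (by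
    rintro ⟨D0, z⟩ ⟨hD0, hDR0⟩ ⟨⟨u, hu⟩, Ψ⟩
    dsimp only at hD0 hDR0
    obtain ⟨E, hE, hE0, hEt⟩ := hJ u hu.1 (insert u D0) (hD0.insert u) (by
      rintro v (rfl | hv)
      · exact hu.1
      · exact (hDR0 hv).1)
    let D : Set V := E ∩ R
    have hDf : D.Finite := hE.subset Set.inter_subset_left
    have hDR : D ⊆ R := Set.inter_subset_right
    have hD0D : D0 ⊆ D := fun v hv => ⟨hE0 (Or.inr hv), hDR0 hv⟩
    let SS : Set V := {v | v ∈ S ∨ v ∉ P}
    have huSS : u ∉ SS := fun h => h.elim hu.2 fun h => h hu.1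
    have hnSS : ∀ v, v ∉ SS → v ∈ R := fun v hv =>
      ⟨by_contra fun h => hv (Or.inr h), fun h => hv (Or.inl h)⟩
    let zz : V → Bool := gz (D, z)
    have zS : ∀ v ∈ S, zz v = τ v := fun v hv => gS _ v hv
    have zP : ∀ v, v ∉ P → zz v = z0 v := fun v hv => gP _ v hv
    have zR : ∀ v ∈ R, zz v = z v := fun v hv => gR _ v hv
    by_contra hcon
    push Not at hcon
    -- the second alternative fails for almost all gadgets
    have h2 : ∀ t, DichE Sv t u E → t ∉ Ψ → ∃ (Y : Set V) (f : V → Bool), Y ⊆ E \ SS ∧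
        Y.Nonempty ∧ ∀ z' : V → Bool, (∀ v ∈ SS, z' v = zz v) → (∀ v ∈ Y, z' v = f v) →
        ∀ p ∈ Y, Sv z' t p := by
      intro t ht htΨ
      rcases ht SS zz huSS with h | ⟨E', f, hE', hEf⟩
      · exact h
      exfalso
      let z1 : V → Bool := fun v => if v ∈ D then z v else f v
      have hz1 : ∀ v ∈ D, z1 v = z v := fun v hv => if_pos hv
      have hz1' : ∀ v, v ∉ D → z1 v = f v := fun v hv => if_neg hv
      obtain ⟨z', g1, g2, g3, g4⟩ := hcon (D ∪ (E' ∩ R), z1)
        ⟨hDf.union (hE'.subset Set.inter_subset_left),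
          Set.union_subset hDR Set.inter_subset_right⟩
        ⟨hD0D.trans Set.subset_union_left, fun v hv => hz1 v (hD0D hv)⟩
        (Set.union_subset hDR Set.inter_subset_right) t htΨ
      refine g4 (hEf z' ?_ ?_)
      · have aux : ∀ v ∈ SS, z' v = zz v := by
          rintro v (hv | hv)
          · exact (g2 v hv).trans (zS v hv).symm
          · exact (g1 v hv).trans (zP v hv).symm
        rintro v (hv | hv)
        · exact aux v hv
        · by_cases hvS : v ∈ SS
          · exact aux v hvS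
          · have hvD : v ∈ D := ⟨hv, hnSS v hvS⟩
            exact (g3 v (Or.inl hvD)).trans ((hz1 v hvD).trans (zR v hvD.2).symm)
      · intro v hvE hvS hvE'
        exact (g3 v (Or.inr ⟨hvE, hnSS v hvS⟩)).trans (hz1' v fun h => hvE' h.1)
    choose! Y f hY1 hY2 hYs using h2
    have hinf : ({t | DichE Sv t u E} \ (Ψ : Set T)).Infinite := hEt.sdiff Ψ.finite_toSet
    obtain ⟨Y0, F0, hY0⟩ : ∃ Y0 F0 : Set V,
        {t | t ∈ {t | DichE Sv t u E} \ (Ψ : Set T) ∧ Y t = Y0 ∧
          {v | v ∈ Y t ∧ f t v = true} = F0}.Infinite := by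
      by_contra hcon'
      push Not at hcon'
      refine hinf ((hDf.finite_subsets.biUnion (t := fun Y0 => ⋃ F0 ∈ {b | b ⊆ D},
        {t | t ∈ {t | DichE Sv t u E} \ (Ψ : Set T) ∧ Y t = Y0 ∧
          {v | v ∈ Y t ∧ f t v = true} = F0}) fun Y0 hY0 => hDf.finite_subsets.biUnion
            fun F0 _ => hcon' Y0 F0).subset fun t ht => ?_)
      have hYD : Y t ⊆ D := fun v hv => ⟨(hY1 t ht.1 ht.2 hv).1, hnSS v (hY1 t ht.1 ht.2 hv).2⟩
      refine Set.mem_biUnion (x := Y t) hYD (Set.mem_biUnion (x := {v | v ∈ Y t ∧ f t v = true})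
        (fun v hv => hYD hv.1) ⟨ht, rfl, rfl⟩)
    obtain ⟨t0, ht0, e1, e2⟩ := hY0.nonempty
    have hY0R : Y0 ⊆ R := by
      rw [← e1]
      exact fun v hv => hnSS v (hY1 t0 ht0.1 ht0.2 hv).2
    have hY0n : Y0.Nonempty := by
      rw [← e1]; exact hY2 t0 ht0.1 ht0.2
    -- enlarge the secured set
    let τ' : V → Bool := fun v => if v ∈ S then τ v else decide (v ∈ F0)
    have t1 : ∀ v ∈ S, τ' v = τ v := fun v hv => if_pos hv
    have t2 : ∀ v, v ∉ S → τ' v = decide (v ∈ F0) := fun v hv => if_neg hv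
    have hle : S ∪ Y0 ⊆ S := by
      refine hM (S ∪ Y0) τ' ⟨?_, ?_⟩ Set.subset_union_left t1
      · rintro v (hv | hv)
        · exact hS.1 hv
        · exact (hY0R hv).1
      · intro z' hz0 hz' w hw
        by_cases hwS : w ∈ S
        · exact hS.2 z' hz0 (fun v hv => (hz' v (Or.inl hv)).trans (t1 v hv)) w hwS
        · have hwY : w ∈ Y0 := hw.resolve_left hwS
          refine hY0.mono ?_
          rintro t ⟨ht, ht1, ht2⟩
          refine hYs t ht.1 ht.2 z' (fun v hv => ?_) (fun v hv => ?_) w (by rw [ht1]; exact hwY)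
          · rcases hv with h | h
            · exact (hz' v (Or.inl h)).trans ((t1 v h).trans (zS v h).symm)
            · exact (hz0 v h).trans (zP v h).symm
          · have hvY : v ∈ Y0 := by rw [← ht1]; exact hv
            rw [hz' v (Or.inr hvY), t2 v (hY0R hvY).2]
            have hm : v ∈ F0 ↔ f t v = true := by
              rw [← ht2]
              exact ⟨fun h => h.2, fun h => ⟨hv, h⟩⟩
            by_cases hf : f t v = true
            · rw [hf, decide_eq_true (hm.2 hf)]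
            · rw [decide_eq_false fun h => hf (hm.1 h)]
              cases h : f t v
              · rfl
              · exact absurd h hf
    obtain ⟨y, hy⟩ := hY0n
    exact (hY0R hy).2 (hle (Or.inr hy)))
  refine ⟨gz (R, c), gP _, fun u hu => ?_⟩
  by_cases huS : u ∈ S
  · exact hS.2 _ (gP _) (gS _) u huS
  intro hfin
  obtain ⟨s, ⟨h0, t, h1, h2⟩, hs⟩ := hc (⟨u, hu, huS⟩, hfin.toFinset)
  refine h1 (hfin.mem_toFinset.2 ?_)
  exact h2 _ (gP _) (gS _) fun v hv => by rw [gR _ v (h0 hv)]; exact hs v hv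

end UnfD
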