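import Pool.Agent.Work.MP_1aab6d_thin_helper61.Dich
import Pool.Agent.Work.MP_1aab6d_thin_helper61.Asel2
import Pool.Agent.Work.MP_1aab6d_co_h84.Robust

/-!
# Finite bipartite components and robust components
-/

set_option autoImplicit false

namespace UnfD

open Finset Classical UnfT UnfS

variable {V : Type*} {G : SimpleGraph V}

variable (G) in
/-- `x` is in a finite component such that the edges with at least one end in it form a bipartite
graph. -/
def BpC (x : V) : Prop :=
  ¬ Inf G x ∧ (comp G x).Finite ∧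
    ∃ s : V → Bool, ∀ a ∈ comp G x, ∀ b, G.Adj a b → s a ≠ s b

/-- The dichotomy for finite bipartite components. -/
theorem dich_bip {x u : V} (hx : BpC G x) (hu : Inf G u)
    (hne : (comp G x ∩ G.neighborSet u).Nonempty) (S : Set V) (z : V → Bool) (huS : u ∈ S) :
    (∃ Y : Set V, Y.Finite ∧ u ∈ Y ∧ Y ⊆ S ∧
      ∀ z' : V → Bool, (∀ v ∈ Y, z' v = fp u z v) → ∀ p ∈ Y, SvC G z' x p) ∨
    ∃ (E : Set V) (f : V → Bool), E.Finite ∧
      ∀ z' : V → Bool, (∀ v ∈ S, z' v = z v) → (∀ v ∈ E, v ∉ S → z' v = f v) →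
        SvC G z' x u := by
  obtain ⟨hxI, hf, t, ht⟩ := hx
  have hCI : ∀ v ∈ comp G x, ¬ Inf G v := fun v hv => comp_not_inf hxI hv
  let X : Finset V := hf.toFinset
  have hX : ∀ v, v ∈ X ↔ v ∈ comp G x := fun v => hf.mem_toFinset
  let θ : Bool := xor (z u) (t u)
  have hθ : z u = xor θ (t u) := by
    show z u = xor (xor (z u) (t u)) (t u)
    cases z u <;> cases t u <;> rfl
  let zf : V → Bool := fun v => if v ∈ S then z v else xor θ (t v)
  have zf1 : ∀ v ∈ S, zf v = z v := fun v hv => if_pos hv
  have zf2 : ∀ v, v ∉ S → zf v = xor θ (t v) := fun v hv => if_neg hv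
  let IG : Set V := {b | Inf G b ∧ zf b = xor θ (t b)}
  let g : Finset V → V → Finset V := fun M v => (nb G v).filter (fun b => b ∈ M ∨ b ∈ IG)
  let Pm : Finset V → Prop := fun M => ∀ v ∈ M, (nb G v).card ≤ 2 * (g M v).card
  obtain ⟨M, hM, hMmax⟩ := Finset.exists_max_image (X.powerset.filter Pm) Finset.card
    ⟨∅, mem_filter.2 ⟨Finset.empty_mem_powerset X, fun v hv => absurd hv (notMem_empty v)⟩⟩
  rw [mem_filter, mem_powerset] at hM
  obtain ⟨hMX, hMP⟩ := hM
  have hout : ∀ v ∈ X, v ∉ M → 2 * (g M v).card < (nb G v).card := by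
    intro v hv hvM
    by_contra hcon
    push Not at hcon
    have h1 : insert v M ∈ X.powerset.filter Pm := by
      refine mem_filter.2 ⟨mem_powerset.2 (insert_subset hv hMX), fun w hw => ?_⟩
      have hmono : (g M w).card ≤ (g (insert v M) w).card := by
        refine Finset.card_le_card fun b hb => ?_
        have hb' := mem_filter.1 hb
        exact mem_filter.2 ⟨hb'.1, hb'.2.imp_left fun h => mem_insert_of_mem h⟩
      rcases mem_insert.1 hw with rfl | hw
      · omega
      · have := hMP w hw
        omega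
    have h2 := hMmax _ h1
    rw [card_insert_of_notMem hvM] at h2
    omega
  by_cases hcase : ∃ y ∈ M, G.Adj u y
  · right
    obtain ⟨y, hyM, huy⟩ := hcase
    refine ⟨bd G x, zf, bd_finite hxI hf, fun z' h1 h2 => ?_⟩
    have hz' : ∀ b ∈ bd G x, z' b = zf b := by
      intro b hb
      by_cases hbS : b ∈ S
      · rw [h1 b hbS, zf1 b hbS]
      · exact h2 b hb hbS
    let ρ : V → Bool := fun v => if v ∈ X then xor θ (t v) else z' v
    have r1 : ∀ v ∈ X, ρ v = xor θ (t v) := fun v hv => if_pos hv
    have r2 : ∀ v, v ∉ X → ρ v = z' v := fun v hv => if_neg hv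
    refine ⟨(M : Set V), ρ, fun v hv => (hX v).1 (hMX hv), fun a ha => ?_, fun w hw =>
      r2 w fun h => hCI w ((hX w).1 h) hw, y, hyM, huy, ?_⟩
    · have haX := hMX ha
      have haF := hCI a ((hX a).1 haX)
      refine ⟨haF, ?_⟩
      rw [← card_nb haF]
      refine (hMP a ha).trans (Nat.mul_le_mul_left 2 ?_)
      rw [← Set.ncard_coe_finset]
      refine Set.ncard_le_ncard ?_ ((Set.not_infinite.1 haF).subset fun w hw => hw.1)
      intro b hb
      have hb' := mem_filter.1 (mem_coe.1 hb)
      have hab := (mem_nb G haF).1 hb'.1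
      have htab := ht a ((hX a).1 haX) b hab
      rcases hb'.2 with h | h
      · refine ⟨hab, Or.inr h, ?_⟩
        rw [r1 a haX, r1 b (hMX h)]
        revert htab
        cases t a <;> cases t b <;> cases θ <;> simp
      · refine ⟨hab, Or.inl h.1, ?_⟩
        have hbX : b ∉ X := fun h' => hCI b ((hX b).1 h') h.1
        rw [r1 a haX, r2 b hbX, hz' b ⟨h.1, a, (hX a).1 haX, hab⟩, h.2]
        revert htab
        cases t a <;> cases t b <;> cases θ <;> simp
    · have htab := ht y ((hX y).1 (hMX hyM)) u huy.symm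
      rw [r1 y (hMX hyM), h1 u huS, hθ]
      revert htab
      cases t y <;> cases t u <;> cases θ <;> simp
  · left
    push Not at hcase
    refine ⟨{p | p = u ∨ (p ∈ S ∧ Inf G p ∧ z p = xor (!θ) (t p) ∧ ∃ v ∈ X, v ∉ M ∧ G.Adj v p)},
      ?_, Or.inl rfl, ?_, fun z' hz' p hp => ?_⟩
    · refine ((Set.finite_singleton u).union (bd_finite hxI hf)).subset ?_
      rintro p (h | ⟨-, h1, -, v, h2, -, h3⟩)
      · exact Or.inl h
      · exact Or.inr ⟨h1, v, (hX v).1 h2, h3⟩
    · rintro p (rfl | h)
      · exact huS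
      · exact h.1
    · have hfp : ∀ b, z b = xor (!θ) (t b) → fp u z b = z b := by
        intro b hb
        refine fp_ne _ ?_
        rintro rfl
        rw [hθ] at hb
        revert hb
        cases θ <;> cases t b <;> simp
      let ρ : V → Bool := fun v => if v ∈ X ∧ v ∉ M then xor (!θ) (t v) else z' v
      have r1 : ∀ v ∈ X, v ∉ M → ρ v = xor (!θ) (t v) := fun v hv hv' => if_pos ⟨hv, hv'⟩
      have r2 : ∀ v, v ∉ X → ρ v = z' v := fun v hv => if_neg fun h => hv h.1
      refine ⟨{v | v ∈ X ∧ v ∉ M}, ρ, fun v hv => (hX v).1 hv.1, ?_, fun w hw =>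
        r2 w fun h => hCI w ((hX w).1 h) hw, ?_⟩
      · rintro a ⟨haX, haM⟩
        have haF := hCI a ((hX a).1 haX)
        refine ⟨haF, ?_⟩
        have h1 := hout a haX haM
        have h2 := Finset.card_filter_add_card_filter_not (s := nb G a)
          (fun b => b ∈ M ∨ b ∈ IG)
        have h3 : ((nb G a).filter (fun b => ¬ (b ∈ M ∨ b ∈ IG))).card
            ≤ {b | G.Adj a b ∧ (Inf G b ∨ b ∈ {v | v ∈ X ∧ v ∉ M}) ∧ ρ b ≠ ρ a}.ncard := by
          rw [← Set.ncard_coe_finset]
          refine Set.ncard_le_ncard ?_ ((Set.not_infinite.1 haF).subset fun w hw => hw.1)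
          intro b hb
          have hb' := mem_filter.1 (mem_coe.1 hb)
          have hab := (mem_nb G haF).1 hb'.1
          have htab := ht a ((hX a).1 haX) b hab
          obtain ⟨k1, k2⟩ := not_or.1 hb'.2
          by_cases hbI : Inf G b
          · have hbS : b ∈ S := by
              by_contra hbS
              exact k2 ⟨hbI, zf2 b hbS⟩
            have hzb : z b = xor (!θ) (t b) := by
              have : z b ≠ xor θ (t b) := fun h => k2 ⟨hbI, by rw [zf1 b hbS]; exact h⟩
              revert this
              cases z b <;> cases θ <;> cases t b <;> simp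
            have hbX : b ∉ X := fun h' => hCI b ((hX b).1 h') hbI
            refine ⟨hab, Or.inl hbI, ?_⟩
            rw [r1 a haX haM, r2 b hbX, hz' b (Or.inr ⟨hbS, hbI, hzb, a, haX, haM, hab⟩),
              hfp b hzb, hzb]
            revert htab
            cases t a <;> cases t b <;> cases θ <;> simp
          · have hbX : b ∈ X := by
              rcases comp_adj ((hX a).1 haX) hab with h | h
              · exact (hX b).2 h
              · exact absurd h.1 hbI
            refine ⟨hab, Or.inr ⟨hbX, k1⟩, ?_⟩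
            rw [r1 a haX haM, r1 b hbX k1]
            revert htab
            cases t a <;> cases t b <;> cases θ <;> simp
        rw [← card_nb haF]
        have h4 : (g M a).card = ((nb G a).filter (fun b => b ∈ M ∨ b ∈ IG)).card := rfl
        omega
      · rcases hp with rfl | ⟨hpS, hpI, hzp, v, hvX, hvM, hvp⟩
        · obtain ⟨y, hy1, hy2⟩ := hne
          have hyX := (hX y).2 hy1
          have hyM : y ∉ M := fun h => hcase y h hy2
          refine ⟨y, ⟨hyX, hyM⟩, hy2, ?_⟩
          have htab := ht y hy1 p (show G.Adj p y from hy2).symm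
          rw [r1 y hyX hyM, hz' p (Or.inl rfl), fp_eq, hθ]
          revert htab
          cases t y <;> cases t p <;> cases θ <;> simp
        · refine ⟨v, ⟨hvX, hvM⟩, hvp.symm, ?_⟩
          have htab := ht v ((hX v).1 hvX) p hvp
          rw [r1 v hvX hvM, hz' p (Or.inr ⟨hpS, hpI, hzp, v, hvX, hvM, hvp⟩), hfp p hzp, hzp]
          revert htab
          cases t v <;> cases t p <;> cases θ <;> simp

end UnfD
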