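import Pool.Agent.Work.MP_1aab6d_thin_helper61.Asel

/-!
# The dichotomy for components
-/

set_option autoImplicit false

namespace UnfD

open Finset Classical UnfT UnfS

variable {V : Type*} {G : SimpleGraph V}

variable (G) in
/-- The component of `x` serves `p`. -/
def SvC (z : V → Bool) (x p : V) : Prop :=
  ∃ (A : Set V) (ρ : V → Bool), A ⊆ comp G x ∧ Fz G A ρ ∧ (∀ w, Inf G w → ρ w = z w) ∧
    ∃ y ∈ A, G.Adj p y ∧ ρ y ≠ z p

variable (G) in
/-- `x` is in a component all of whose vertices are thin, and each vertex of infinite degree has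
finitely many neighbours in this component. -/
def ThC (x : V) : Prop :=
  ¬ Inf G x ∧ (∀ v ∈ comp G x, Thin G v) ∧
    ∀ w, Inf G w → (comp G x ∩ G.neighborSet w).Finite

/-- Compactness. -/
lemma certificate {x u : V} (hx : ¬ Inf G x)
    (hf : (comp G x ∩ G.neighborSet u).Finite) {z : V → Bool} (hz : ¬ SvC G z x u) :
    ∃ C : Finset V, (∀ v ∈ C, v ∈ comp G x) ∧ (∀ v ∈ comp G x, G.Adj u v → v ∈ C) ∧
      ∀ s : V → Bool, (∀ w, Inf G w → s w = z w) → (∀ v ∈ C, Stab G s v) →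
        ∀ y ∈ comp G x, G.Adj u y → s y = z u := by
  by_contra hcon
  push Not at hcon
  let N : Finset V := hf.toFinset
  have hN : ∀ v, v ∈ N ↔ v ∈ comp G x ∧ G.Adj u v := fun v => by
    simp only [N, Set.Finite.mem_toFinset]; rfl
  let K : V → Set (V → Bool) := fun v => {c | (∀ w, Inf G w → c w = z w) ∧
    (v ∈ comp G x → Stab G c v) ∧ ∃ y ∈ comp G x, G.Adj u y ∧ c y ≠ z u}
  have c1 : IsClosed {c : V → Bool | ∀ v, Inf G v → c v = z v} := by
    have : {c : V → Bool | ∀ v, Inf G v → c v = z v} = ⋂ v ∈ {v | Inf G v}, {c | c v = z v} := by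
      ext c; simp
    rw [this]
    exact isClosed_biInter fun v _ => isClosed_eq (continuous_apply v) continuous_const
  have c2 : IsClosed {c : V → Bool | ∃ y ∈ comp G x, G.Adj u y ∧ c y ≠ z u} := by
    have : {c : V → Bool | ∃ y ∈ comp G x, G.Adj u y ∧ c y ≠ z u}
        = ⋃ y ∈ (comp G x ∩ G.neighborSet u), {c | c y = !(z u)} := by
      ext c
      simp only [Set.mem_ofPred_eq, Set.mem_iUnion, Set.mem_inter_iff, exists_prop,
        SimpleGraph.mem_neighborSet]
      constructor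
      · rintro ⟨y, h1, h2, h3⟩
        exact ⟨y, ⟨h1, h2⟩, by revert h3; cases c y <;> cases z u <;> simp⟩
      · rintro ⟨y, ⟨h1, h2⟩, h3⟩
        exact ⟨y, h1, h2, by rw [h3]; simp⟩
    rw [this]
    exact hf.isClosed_biUnion fun y _ => isClosed_eq (continuous_apply y) continuous_const
  have hK : ∀ v, IsClosed (K v) := by
    intro v
    by_cases hv : v ∈ comp G x
    · have hvI : ¬ Inf G v := comp_not_inf hx hv
      have : K v = ({c : V → Bool | ∀ v, Inf G v → c v = z v} ∩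
          {c | 0 ≤ en G (eps Set.univ c) {v}}) ∩
          {c : V → Bool | ∃ y ∈ comp G x, G.Adj u y ∧ c y ≠ z u} := by
        ext c
        refine ⟨fun h => ⟨⟨h.1, (stab_iff c hvI).1 (h.2.1 hv)⟩, h.2.2⟩,
          fun h => ⟨h.1.1, fun _ => (stab_iff c hvI).2 h.1.2, h.2⟩⟩
      rw [this]
      exact (c1.inter (isClosed_le continuous_const (continuous_en {v}))).inter c2
    · have : K v = {c : V → Bool | ∀ v, Inf G v → c v = z v} ∩
          {c : V → Bool | ∃ y ∈ comp G x, G.Adj u y ∧ c y ≠ z u} := by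
        ext c
        exact ⟨fun h => ⟨h.1, h.2.2⟩, fun h => ⟨h.1, fun h' => absurd h' hv, h.2⟩⟩
      rw [this]; exact c1.inter c2
  have hne : ∀ t : Finset V, (Set.univ ∩ ⋂ v ∈ t, K v).Nonempty := by
    intro t
    obtain ⟨s, hs1, hs2, y, hs3, hs4, hs5⟩ := hcon (t.filter (· ∈ comp G x) ∪ N) (by
      intro v hv
      rcases mem_union.1 hv with h | h
      · exact (mem_filter.1 h).2
      · exact ((hN v).1 h).1) (by
      intro v hv huv
      exact mem_union_right _ ((hN v).2 ⟨hv, huv⟩))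
    refine ⟨s, Set.mem_univ _, ?_⟩
    simp only [Set.mem_iInter]
    intro v hv
    exact ⟨hs1, fun hvC => hs2 v (mem_union_left _ (mem_filter.2 ⟨hv, hvC⟩)), y, hs3, hs4, hs5⟩
  obtain ⟨c, -, hc⟩ := isCompact_univ.inter_iInter_nonempty K hK hne
  rw [Set.mem_iInter] at hc
  refine hz ⟨comp G x, c, subset_rfl, fun a ha => ⟨comp_not_inf hx ha, ?_⟩, (hc x).1, ?_⟩
  · refine ((stab_iff_deg (comp_not_inf hx ha)).1 ((hc a).2.1 ha)).trans
      (Nat.mul_le_mul_left 2 ?_)
    refine Set.ncard_le_ncard ?_ ((Set.not_infinite.1 (comp_not_inf hx ha)).subset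
      fun w hw => hw.1)
    rintro b ⟨g1, g2⟩
    refine ⟨g1, ?_, g2⟩
    rcases comp_adj ha g1 with h | h
    · exact Or.inr h
    · exact Or.inl h.1
  · obtain ⟨y, h1, h2, h3⟩ := (hc x).2.2
    exact ⟨y, h1, h2, h3⟩

lemma stab_congr {s s' : V → Bool} {v : V} (h : Stab G s v) (h0 : s' v = s v)
    (h1 : ∀ w, G.Adj v w → s' w = s w) : Stab G s' v := by
  unfold Stab at *
  have e1 : {w | G.Adj v w ∧ s' w = s' v} = {w | G.Adj v w ∧ s w = s v} := by
    ext w
    simp only [Set.mem_ofPred_eq]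
    refine and_congr_right fun hw => ?_
    rw [h0, h1 w hw]
  have e2 : {w | G.Adj v w ∧ s' w ≠ s' v} = {w | G.Adj v w ∧ s w ≠ s v} := by
    ext w
    simp only [Set.mem_ofPred_eq]
    refine and_congr_right fun hw => ?_
    rw [h0, h1 w hw]
  rw [e1, e2]; exact h

lemma kk_eq {c : V → Bool} {K : Finset V} {S : Set V} {u v : V} (hv : ¬ Inf G v) :
    kk G c K S u v = {b | G.Adj v b ∧ (b ∈ K ∨ b ∈ S) ∧ fp u c b ≠ c v}.ncard := by
  unfold kk
  rw [← Set.ncard_coe_finset]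
  congr 1
  ext b
  rw [mem_coe, mem_filter, mem_nb G hv]
  rfl

/-- **The dichotomy for components.** -/
theorem dich_comp {x u : V} (hx : ThC G x) (hu : Inf G u)
    (hne : (comp G x ∩ G.neighborSet u).Nonempty) (S : Set V) (z : V → Bool) (huS : u ∈ S) :
    (∃ Y : Set V, Y.Finite ∧ u ∈ Y ∧ Y ⊆ S ∧
      ∀ z' : V → Bool, (∀ v ∈ Y, z' v = fp u z v) → ∀ p ∈ Y, SvC G z' x p) ∨
    ∃ (E : Set V) (f : V → Bool), E.Finite ∧
      ∀ z' : V → Bool, (∀ v ∈ S, z' v = z v) → (∀ v ∈ E, v ∉ S → z' v = f v) →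
        SvC G z' x u := by
  obtain ⟨hxI, hT, hW⟩ := hx
  rw [or_iff_not_imp_right]
  intro h2
  push Not at h2
  have hCI : ∀ v ∈ comp G x, ¬ Inf G v := fun v hv => comp_not_inf hxI hv
  obtain ⟨z1, a1, -, a2⟩ := h2 ∅ z Set.finite_empty
  obtain ⟨C1, b1, b2, b3⟩ := certificate hxI (hW u hu) a2
  have hE1 : {w | Inf G w ∧ ∃ v ∈ C1, G.Adj v w}.Finite := by
    have : (⋃ v ∈ (C1 : Set V), G.neighborSet v).Finite :=
      C1.finite_toSet.biUnion fun v hv => Set.not_infinite.1 (hCI v (b1 v hv))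
    refine this.subset ?_
    rintro w ⟨-, v, hv, hvw⟩
    exact Set.mem_biUnion (x := v) hv hvw
  obtain ⟨z2, d1, d2, d3⟩ := h2 _ (fun v => !(z1 v)) hE1
  obtain ⟨C2, e1, e2, e3⟩ := certificate hxI (hW u hu) d3
  let SI : Set V := {v | v ∈ S ∧ Inf G v}
  let C : Finset V := C1 ∪ C2
  have hC : ∀ v ∈ C, v ∈ comp G x := by
    intro v hv
    rcases mem_union.1 hv with h | h
    · exact b1 v h
    · exact e1 v h
  let zb : V → Bool := fun v => if v ∈ SI then z2 v else !(z2 v)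
  have f1 : ∀ v ∈ SI, zb v = z2 v := fun v hv => if_pos hv
  have f2 : ∀ v, v ∉ SI → zb v = !(z2 v) := fun v hv => if_neg hv
  obtain ⟨y, hy1, hy2⟩ := hne
  have hSIC : ∀ v ∈ SI, v ∉ C := fun v hv hvC => hCI v (hC v hvC) hv.2
  have huC : u ∉ C := fun h => hCI u (hC u h) hu
  obtain ⟨K, ρ, g1, g2, g3, y', g4, g5, g6⟩ := kill (C := C) (fun v hv => hT v (hC v hv))
    (S := SI) hSIC (u := u) ⟨huS, hu⟩ (z := z2) (zb := zb) f1
    (fun v hv _ => by rw [f2 v hv]; simp)
    (by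
      intro s hs1 hs2 y hy huy
      refine e3 s (fun w hw => hs1 w fun h => hCI w (hC w h) hw)
        (fun v hv => hs2 v (mem_union_right _ hv)) y (hC y hy) huy)
    (by
      intro s hs1 hs2 y hy huy
      let s' : V → Bool := fun v => if Inf G v then z1 v else s v
      have s1 : ∀ v, Inf G v → s' v = z1 v := fun v hv => if_pos hv
      have s2 : ∀ v, ¬ Inf G v → s' v = s v := fun v hv => if_neg hv
      have hyF : ¬ Inf G y := hCI y (hC y hy)
      rw [← s2 y hyF, d1 u huS, ← a1 u huS]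
      refine b3 s' s1 (fun v hv => ?_) y (hC y hy) huy
      have hvF : ¬ Inf G v := hCI v (b1 v hv)
      refine stab_congr (hs2 v (mem_union_left _ hv)) (s2 v hvF) fun w hw => ?_
      by_cases hwI : Inf G w
      · rw [s1 w hwI, hs1 w fun h => hCI w (hC w h) hwI]
        by_cases hwS : w ∈ S
        · rw [f1 w ⟨hwS, hwI⟩, d1 w hwS, a1 w hwS]
        · rw [f2 w fun h => hwS h.1, d2 w ⟨hwI, v, hv, hw⟩ hwS]; simp
      · exact s2 w hwI)
    (y := y) (mem_union_left _ (b2 y hy1 hy2)) hy2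
  have hρS : ∀ v ∈ SI, ρ v = z v := fun v hv => by rw [g2 v (hSIC v hv), d1 v hv.1]
  have hfp : ∀ v ∈ SI, fp u ρ v = fp u z v := by
    intro v hv
    by_cases hvu : v = u
    · subst hvu; rw [fp_eq, fp_eq, hρS v hv]
    · rw [fp_ne _ hvu, fp_ne _ hvu, hρS v hv]
  have hKF : ∀ v ∈ K, ¬ Inf G v := fun v hv => hCI v (hC v (g1 hv))
  refine ⟨{p | p ∈ SI ∧ ∃ v ∈ K, G.Adj v p ∧ fp u z p ≠ ρ v}, ?_, ?_, fun p hp => hp.1.1, ?_⟩
  · have : (⋃ v ∈ (K : Set V), G.neighborSet v).Finite :=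
      K.finite_toSet.biUnion fun v hv => Set.not_infinite.1 (hKF v hv)
    refine this.subset ?_
    rintro p ⟨-, v, hv, hvp, -⟩
    exact Set.mem_biUnion (x := v) hv hvp
  · refine ⟨⟨huS, hu⟩, y', g4, g5.symm, ?_⟩
    rw [fp_eq, g6, d1 u huS]; simp
  · intro z' hz' p hp
    let ρ' : V → Bool := fun v => if v ∈ K then ρ v else z' v
    have r1 : ∀ v ∈ K, ρ' v = ρ v := fun v hv => if_pos hv
    have r2 : ∀ v, v ∉ K → ρ' v = z' v := fun v hv => if_neg hv
    refine ⟨(K : Set V), ρ', fun v hv => hC v (g1 hv), ?_, fun w hw => r2 w fun h => hKF w h hw,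
      ?_⟩
    · intro a ha
      have haF := hKF a ha
      refine ⟨haF, ?_⟩
      rw [← card_nb haF]
      refine (g3 a ha).trans (Nat.mul_le_mul_left 2 ?_)
      rw [kk_eq haF]
      refine Set.ncard_le_ncard ?_ ((Set.not_infinite.1 haF).subset fun w hw => hw.1)
      rintro b ⟨k1, k2, k3⟩
      refine ⟨k1, ?_, ?_⟩
      · rcases k2 with k2 | k2
        · exact Or.inr k2
        · exact Or.inl k2.2
      · rw [r1 a ha]
        rcases k2 with k2 | k2
        · have hbu : b ≠ u := by rintro rfl; exact huC (g1 k2)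
          rw [fp_ne _ hbu] at k3
          rw [r1 b k2]; exact k3
        · have hbK : b ∉ K := fun h => hKF b h k2.2
          rw [hfp b k2] at k3
          rw [r2 b hbK, hz' b ⟨k2, a, ha, k1, k3⟩]; exact k3
    · obtain ⟨hpS, v, hv, hvp, hne'⟩ := hp
      refine ⟨v, hv, hvp.symm, ?_⟩
      rw [r1 v hv, hz' p ⟨hpS, v, hv, hvp, hne'⟩]
      exact hne'.symm

end UnfD
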