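import Pool.Agent.Work.MP_1aab6d_deg4_helper61.Low

/-!
# Finitely many exceptional vertices
-/

set_option autoImplicit false

namespace UnfD

open Finset Classical UnfT

variable {V : Type*} {G : SimpleGraph V}

variable (G) in
/-- No finite set of vertices of finite degree outside `A` can be flipped with a gain. -/
def TMr (A : Set V) (c : V → Bool) : Prop :=
  ∀ Q : Finset V, (∀ x ∈ Q, x ∉ A ∧ ¬ Inf G x) → 0 ≤ en G (eps Set.univ c) Q

theorem exists_TMr (A : Set V) (ρ : V → Bool) :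
    ∃ c : V → Bool, (∀ v, v ∈ A ∨ Inf G v → c v = ρ v) ∧ TMr G A c := by
  set R1 : Set V := {v | v ∈ A ∨ Inf G v} with hR1
  let K : Finset V → Set (V → Bool) := fun Q =>
    {c | (∀ v ∈ R1, c v = ρ v) ∧ ((∀ x ∈ Q, x ∉ R1) → 0 ≤ en G (eps Set.univ c) Q)}
  have hK : ∀ Q, IsClosed (K Q) := by
    intro Q
    have c1 : IsClosed {c : V → Bool | ∀ v ∈ R1, c v = ρ v} := by
      have : {c : V → Bool | ∀ v ∈ R1, c v = ρ v} = ⋂ v ∈ R1, {c | c v = ρ v} := by
        ext c; simp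
      rw [this]
      exact isClosed_biInter fun v _ => isClosed_eq (continuous_apply v) continuous_const
    by_cases hq : ∀ x ∈ Q, x ∉ R1
    · have : K Q = {c : V → Bool | ∀ v ∈ R1, c v = ρ v} ∩ {c | 0 ≤ en G (eps Set.univ c) Q} := by
        ext c; simp only [K, Set.mem_ofPred_eq, Set.mem_inter_iff]
        exact and_congr_right fun _ => ⟨fun h => h hq, fun h _ => h⟩
      rw [this]
      exact c1.inter (isClosed_le continuous_const (continuous_en Q))
    · have : K Q = {c : V → Bool | ∀ v ∈ R1, c v = ρ v} := by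
        ext c; simp only [K, Set.mem_ofPred_eq]
        exact ⟨fun h => h.1, fun h => ⟨h, fun h' => absurd h' hq⟩⟩
      rw [this]; exact c1
  have hne : ∀ t : Finset (Finset V), (Set.univ ∩ ⋂ Q ∈ t, K Q).Nonempty := by
    intro t
    set A : Finset V := (t.biUnion id).filter (· ∉ R1) with hA
    have hAI : ∀ x ∈ A, ¬ Inf G x := by
      intro x hx hI
      rw [hA, mem_filter] at hx
      exact hx.2 (Or.inr hI)
    obtain ⟨B, hB, hmin⟩ := Finset.exists_min_image A.powerset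
      (fun B => en G (eps Set.univ ρ) B) ⟨∅, Finset.empty_mem_powerset A⟩
    rw [mem_powerset] at hB
    refine ⟨flp ρ B, Set.mem_univ _, ?_⟩
    simp only [Set.mem_iInter]
    intro Q hQt
    refine ⟨fun v hv => flp_of_not_mem fun hvB => ?_, fun hq => ?_⟩
    · have := hB hvB
      rw [hA, mem_filter] at this
      exact this.2 hv
    · have hQA : Q ⊆ A := by
        intro x hx
        rw [hA, mem_filter]
        exact ⟨mem_biUnion.2 ⟨Q, hQt, hx⟩, hq x hx⟩
      rw [en_flp ρ B Q (fun x hx => hAI x (hB hx)) (fun x hx => hAI x (hQA hx))]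
      have : symmDiff B Q ∈ A.powerset := by
        rw [mem_powerset]
        intro x hx
        rw [Finset.mem_symmDiff] at hx
        rcases hx with hx | hx
        · exact hB hx.1
        · exact hQA hx.1
      have := hmin _ this
      linarith
  obtain ⟨c, -, hc⟩ := isCompact_univ.inter_iInter_nonempty K hK hne
  rw [Set.mem_iInter] at hc
  refine ⟨c, fun v hv => (hc ∅).1 v hv, fun Q hQ => (hc Q).2 fun x hx h => ?_⟩
  exact h.elim (hQ x hx).1 (hQ x hx).2

/-- The Aharoni-Milner-Prikry flip. -/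
theorem TMr.flip {A : Set V} {c : V → Bool} (hc : TMr G A c) {w : V} (hw : Inf G w)
    (hnh : ¬ Happy G c w) : ∃ Q : Finset V, (∀ x ∈ Q, x ∉ A ∧ ¬ Inf G x) ∧
      TMr G A (flp (Function.update c w (!(c w))) Q) := by
  have hfin : {y | G.Adj w y ∧ c y ≠ c w}.Finite := Set.not_infinite.1 hnh
  set c1 := Function.update c w (!(c w)) with hc1
  obtain ⟨m, ⟨Q, hQ, hQm⟩, hmin⟩ := Int.exists_least_of_bdd
    (P := fun z => ∃ Q : Finset V, (∀ x ∈ Q, x ∉ A ∧ ¬ Inf G x) ∧ en G (eps Set.univ c1) Q = z)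
    ⟨-(2 * (hfin.toFinset.card : ℤ)), by
      rintro z ⟨Q, hQ, rfl⟩
      have h1 := en_lower hw hfin Q fun x hx => (hQ x hx).2
      have h2 := hc Q hQ
      linarith⟩ ⟨_, ∅, fun x hx => absurd hx (Finset.notMem_empty x), rfl⟩
  refine ⟨Q, hQ, fun Q' hQ' => ?_⟩
  rw [en_flp c1 Q Q' (fun x hx => (hQ x hx).2) (fun x hx => (hQ' x hx).2), hQm]
  have := hmin _ ⟨symmDiff Q Q', ?_, rfl⟩
  · linarith
  · intro x hx
    rw [Finset.mem_symmDiff] at hx
    rcases hx with hx | hx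
    · exact hQ x hx.1
    · exact hQ' x hx.1

/-- Repairing. -/
theorem TMr.repair {A W : Set V} (hAI : ∀ v ∈ A, ¬ Inf G v) (hWI : ∀ v ∈ W, Inf G v) (n : ℕ) :
    ∀ c : V → Bool, TMr G A c → {u | u ∈ W ∧ ¬ Happy G c u}.encard ≤ n →
    ∃ c' : V → Bool, TMr G A c' ∧ (∀ v, v ∈ A ∨ (Inf G v ∧ v ∉ W) → c' v = c v) ∧
      ∀ u ∈ W, Happy G c' u := by
  induction n with
  | zero =>
    intro c hc h
    refine ⟨c, hc, fun _ _ => rfl, fun u hu => ?_⟩
    by_contra hn
    have : {u | u ∈ W ∧ ¬ Happy G c u} = ∅ := by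
      rw [← Set.encard_eq_zero]; simpa using h
    exact (this ▸ (show u ∈ {u | u ∈ W ∧ ¬ Happy G c u} from ⟨hu, hn⟩) : u ∈ (∅ : Set V))
  | succ n ih =>
    intro c hc h
    by_cases hall : ∀ u ∈ W, Happy G c u
    · exact ⟨c, hc, fun _ _ => rfl, hall⟩
    push Not at hall
    obtain ⟨w, hwW, hwn⟩ := hall
    have hw := hWI w hwW
    obtain ⟨Q, hQ, hT⟩ := hc.flip hw hwn
    set c' := UnfT.flp (Function.update c w (!(c w))) Q with hc'
    have hwQ : w ∉ Q := fun h => (hQ w h).2 hw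
    have hcw : c' w = !(c w) := by rw [hc', flp_of_not_mem hwQ, Function.update_self]
    have hag : ∀ v, v ∉ insert w Q → c' v = c v := by
      intro v hv
      rw [Finset.mem_insert, not_or] at hv
      rw [hc', flp_of_not_mem hv.2, Function.update_of_ne hv.1]
    obtain ⟨c'', k1, k2, k3⟩ := ih c' hT (by
      have hsub : {u | u ∈ W ∧ ¬ Happy G c' u} ⊆ {u | u ∈ W ∧ ¬ Happy G c u} \ {w} := by
        rintro u ⟨hu, hun⟩
        have huw : u ≠ w := by
          rintro rfl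
          apply hun
          have hfin : {y | G.Adj u y ∧ c y ≠ c u}.Finite := Set.not_infinite.1 hwn
          have : (G.neighborSet u \ ({y | G.Adj u y ∧ c y ≠ c u} ∪ ↑(insert u Q))).Infinite :=
            Set.Infinite.sdiff hw (hfin.union (Finset.finite_toSet _))
          refine this.mono ?_
          rintro y ⟨hy1, hy2⟩
          rw [Set.mem_union, not_or] at hy2
          refine ⟨hy1, ?_⟩
          rw [hcw, hag y (by simpa using hy2.2)]
          have : c y = c u := by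
            by_contra hne
            exact hy2.1 ⟨hy1, hne⟩
          rw [this]; simp
        refine ⟨⟨hu, fun hh => hun ?_⟩, huw⟩
        have huQ : u ∉ insert w Q := by
          rw [Finset.mem_insert, not_or]
          exact ⟨huw, fun h => (hQ u h).2 (hWI u hu)⟩
        exact hh.flp hag (hag u huQ)
      have hmem : w ∈ {u | u ∈ W ∧ ¬ Happy G c u} := ⟨hwW, hwn⟩
      have h1 := Set.encard_le_encard hsub
      have h2 := Set.encard_sdiff_singleton_add_one hmem
      have h3 : ({u | u ∈ W ∧ ¬ Happy G c u} \ {w}).encard + 1 ≤ (n : ℕ∞) + 1 := by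
        rw [h2]; simpa using h
      have h4 := (ENat.add_le_add_iff_right (by simp : (1 : ℕ∞) ≠ ⊤)).1 h3
      exact h1.trans h4)
    refine ⟨c'', k1, fun v hv => (k2 v hv).trans (hag v ?_), k3⟩
    rw [Finset.mem_insert, not_or]
    rcases hv with hv | hv
    · exact ⟨fun h => hAI v hv (h ▸ hw), fun h => (hQ v h).1 hv⟩
    · exact ⟨fun h => hv.2 (h ▸ hwW), fun h => (hQ v h).2 hv.1⟩

lemma Lt.trace {A : Set V} (hA : Lt G A) {w : V} (hw : Inf G w) :
    (A ∩ G.neighborSet w).Finite := by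
  rcases hA with hA | ⟨C, h1, h2, -⟩
  · exact hA.subset Set.inter_subset_left
  · exact (h2 w hw).subset (Set.inter_subset_inter_left _ h1)

/-- Disjoint pieces give an unfriendly partition, even if there are finitely many exceptional
vertices. -/
theorem unfriendly_of_pieces' [Countable V] {z : V → Bool} {X : Set V} (hXf : X.Finite)
    (hXI : ∀ u ∈ X, Inf G u)
    (h : ∀ u, Inf G u → u ∉ X → {y | G.Adj u y ∧ Inf G y ∧ z y ≠ z u}.Infinite ∨
      ∀ F : Set (Set V), F.Finite → (∀ A ∈ F, Lt G A) → ∃ (A : Set V) (ρ : V → Bool),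
        Lt G A ∧ Fz G A ρ ∧ (∀ x, Inf G x → ρ x = z x) ∧ (∀ B ∈ F, Disjoint A B) ∧
        ∃ y ∈ A, G.Adj u y ∧ ρ y ≠ z u) :
    ∃ c : V → Bool, Unfriendly G c := by
  let T := {u : V // Inf G u ∧ u ∉ X ∧ ¬ {y | G.Adj u y ∧ Inf G y ∧ z y ≠ z u}.Infinite}
  obtain ⟨Q, hQ1, hQ2, hQ3⟩ := dov (T := T)
    (fun p => Lt G p.1 ∧ Fz G p.1 p.2 ∧ ∀ x, Inf G x → p.2 x = z x)
    (fun u p => ∃ y ∈ p.1, G.Adj u.1 y ∧ p.2 y ≠ z u.1) (p0 := (∅, z))
    ⟨Or.inl Set.finite_empty, fun a ha => absurd ha (Set.notMem_empty _), fun _ _ => rfl⟩ rfl (by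
    rintro F hF hFL ⟨u, hu, huX, hn⟩
    obtain ⟨A, ρ, h1, h2, h3, h4, h5⟩ := ((h u hu huX).resolve_left hn) (Prod.fst '' F)
      (hF.image _) (by rintro _ ⟨p, hp, rfl⟩; exact (hFL p hp).1)
    exact ⟨(A, ρ), ⟨h1, h2, h3⟩, h5, fun q hq => h4 _ ⟨q, hq, rfl⟩⟩)
  have hdis : ∀ m n v, v ∈ (Q m).1 → v ∈ (Q n).1 → m = n := by
    intro m n v h1 h2
    by_contra hmn
    rcases Nat.lt_or_gt_of_ne hmn with h | h
    · exact Set.disjoint_left.1 (hQ2 m n h) h2 h1
    · exact Set.disjoint_left.1 (hQ2 n m h) h1 h2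
  have hQI : ∀ n, ∀ v ∈ (Q n).1, ¬ Inf G v := fun n v hv => ((hQ1 n).2.1 v hv).1
  have htr : ∀ n w, Inf G w → ((Q n).1 ∩ G.neighborSet w).Finite := fun n w hw =>
    (hQ1 n).1.trace hw
  let AN : Set ℕ → Set V := fun N => {v | ∃ n ∈ N, v ∈ (Q n).1}
  let mix : (V → Bool) → V → Bool := fun z' v =>
    if h : ∃ n, v ∈ (Q n).1 then (Q h.choose).2 v else z' v
  have mA : ∀ z' n, ∀ v ∈ (Q n).1, mix z' v = (Q n).2 v := by
    intro z' n v hv
    have h : ∃ n, v ∈ (Q n).1 := ⟨n, hv⟩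
    have e : mix z' v = (Q h.choose).2 v := dif_pos h
    rw [e, hdis _ _ v h.choose_spec hv]
  have mI : ∀ z' v, Inf G v → mix z' v = z' v := by
    intro z' v hv
    exact dif_neg fun ⟨n, hn⟩ => hQI n v hn hv
  let Cc : Set ℕ → (V → Bool) → Prop := fun N z' => ∀ n ∈ N, ∀ a ∈ (Q n).1,
    (G.neighborSet a).ncard ≤ 2 * {b | G.Adj a b ∧ (Inf G b ∨ b ∈ (Q n).1) ∧
      mix z' b ≠ mix z' a}.ncard
  let O : Set ℕ → (V → Bool) → V → Set V := fun N z' w =>
    {y | G.Adj w y ∧ (Inf G y ∨ y ∈ AN N) ∧ mix z' y ≠ z' w}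
  -- index sets of finite sets are finite
  have hidx : ∀ B : Set V, B.Finite → {n | ((Q n).1 ∩ B).Nonempty}.Finite := by
    intro B hB
    refine (hB.biUnion (t := fun b => {n | b ∈ (Q n).1}) fun b _ => ?_).subset ?_
    · refine Set.Subsingleton.finite fun m hm n hn => hdis m n b hm hn
    · rintro n ⟨b, hb, hbB⟩
      exact Set.mem_biUnion hbB hb
  have hpers : ∀ (N N' : Set ℕ) (z' z'' : V → Bool) (W : Set V) (u : V), Inf G u → W.Finite →
      (∀ v, v ∉ W → z'' v = z' v) → z'' u = z' u → (N \ N').Finite →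
      (O N z' u).Infinite → (O N' z'' u).Infinite := by
    intro N N' z' z'' W u hu hW h1 h2 h3 h4
    have h5 : (⋃ n ∈ N \ N', (Q n).1 ∩ G.neighborSet u).Finite := h3.biUnion fun n _ => htr n u hu
    refine (h4.sdiff (hW.union h5)).mono ?_
    rintro y ⟨⟨g1, g2, g3⟩, g4⟩
    rw [Set.mem_union, not_or] at g4
    rcases g2 with g2 | ⟨n, hn, hy⟩
    · refine ⟨g1, Or.inl g2, ?_⟩
      rw [mI _ y g2] at g3 ⊢
      rw [h1 y g4.1, h2]; exact g3
    · refine ⟨g1, Or.inr ⟨n, ?_, hy⟩, ?_⟩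
      · by_contra hnN
        exact g4.2 (Set.mem_biUnion (show n ∈ N \ N' from ⟨hn, hnN⟩) ⟨hy, g1⟩)
      · rw [mA _ n y hy] at g3 ⊢
        rw [h2]; exact g3
  have hstart : ∀ u, Inf G u → u ∉ X → (O Set.univ z u).Infinite := by
    intro u hu huX
    by_cases hn : {y | G.Adj u y ∧ Inf G y ∧ z y ≠ z u}.Infinite
    · refine hn.mono ?_
      rintro y ⟨h1, h2, h3⟩
      exact ⟨h1, Or.inl h2, by rw [mI z y h2]; exact h3⟩
    · have h3 := hQ3 ⟨u, hu, huX, hn⟩
      choose y hy using fun n : {n | ∃ y ∈ (Q n).1, G.Adj u y ∧ (Q n).2 y ≠ z u} => n.2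
      have : Infinite {n | ∃ y ∈ (Q n).1, G.Adj u y ∧ (Q n).2 y ≠ z u} := h3.to_subtype
      have hinj : Function.Injective y := by
        intro m n hmn
        refine Subtype.ext (hdis m.1 n.1 (y m) (hy m).1 ?_)
        rw [hmn]; exact (hy n).1
      refine (Set.infinite_range_of_injective hinj).mono ?_
      rintro _ ⟨n, rfl⟩
      obtain ⟨g1, g2, g3⟩ := hy n
      exact ⟨g2, Or.inr ⟨n.1, Set.mem_univ _, g1⟩, by rw [mA z n.1 _ g1]; exact g3⟩
  have hC0 : Cc Set.univ z := by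
    intro n _ a ha
    refine ((hQ1 n).2.1 a ha).2.trans (Nat.mul_le_mul_left 2 ?_)
    refine Set.ncard_le_ncard ?_ ((Set.not_infinite.1 (hQI n a ha)).subset fun w hw => hw.1)
    rintro b ⟨g1, g2, g3⟩
    refine ⟨g1, g2, ?_⟩
    rw [mA z n a ha]
    rcases g2 with g2 | g2
    · rw [mI z b g2, ← (hQ1 n).2.2 b g2]; exact g3
    · rw [mA z n b g2]; exact g3
  -- vertices with infinitely many decided neighbours
  let II : V → Prop := fun w => {y | G.Adj w y ∧ (Inf G y ∨ y ∈ AN Set.univ)}.Infinite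
  have phase1 : ∀ k : ℕ, ∀ (N : Set ℕ) (z' : V → Bool), Nᶜ.Finite → Cc N z' →
      (∀ u, Inf G u → u ∉ X → (O N z' u).Infinite) →
      {w | w ∈ X ∧ II w ∧ ¬ (O N z' w).Infinite}.encard ≤ k →
      ∃ (N' : Set ℕ) (z'' : V → Bool), N'ᶜ.Finite ∧ Cc N' z'' ∧
        (∀ u, Inf G u → u ∉ X → (O N' z'' u).Infinite) ∧
        ∀ w ∈ X, II w → (O N' z'' w).Infinite := by
    intro k
    induction k with
    | zero =>
      intro N z' h1 h2 h3 h4
      refine ⟨N, z', h1, h2, h3, fun w hw hII => ?_⟩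
      by_contra hn
      have : {w | w ∈ X ∧ II w ∧ ¬ (O N z' w).Infinite} = ∅ := by
        rw [← Set.encard_eq_zero]; simpa using h4
      exact (this ▸ (show w ∈ {w | w ∈ X ∧ II w ∧ ¬ (O N z' w).Infinite} from ⟨hw, hII, hn⟩) :
        w ∈ (∅ : Set V))
    | succ k ih =>
      intro N z' h1 h2 h3 h4
      by_cases hall : ∀ w ∈ X, II w → (O N z' w).Infinite
      · exact ⟨N, z', h1, h2, h3, hall⟩
      push Not at hall
      obtain ⟨w, hwX, hwII, hwO⟩ := hall
      have hw := hXI w hwX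
      let N' : Set ℕ := {n | n ∈ N ∧ ∀ y ∈ (Q n).1, G.Adj w y → (Q n).2 y = z' w}
      have hNN : (N \ N').Finite := by
        refine (hidx _ hwO).subset ?_
        rintro n ⟨hn, hn'⟩
        have : ¬ ∀ y ∈ (Q n).1, G.Adj w y → (Q n).2 y = z' w := fun h => hn' ⟨hn, h⟩
        push Not at this
        obtain ⟨y, hy, hwy, hne⟩ := this
        exact ⟨y, hy, hwy, Or.inr ⟨n, hn, hy⟩, by rw [mA z' n y hy]; exact hne⟩
      let z'' : V → Bool := Function.update z' w (!(z' w))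
      have hz1 : z'' w = !(z' w) := Function.update_self _ _ _
      have hz2 : ∀ v, v ≠ w → z'' v = z' v := fun v hv => Function.update_of_ne hv _ _
      have hz3 : ∀ v, v ∉ ({w} : Set V) → z'' v = z' v := fun v hv => hz2 v hv
      have hN'f : N'ᶜ.Finite := by
        refine (h1.union hNN).subset fun n hn => ?_
        by_cases hnN : n ∈ N
        · exact Or.inr ⟨hnN, hn⟩
        · exact Or.inl hnN
      refine ih N' z'' hN'f ?_ ?_ ?_
      · intro n hn a ha
        refine (h2 n hn.1 a ha).trans (Nat.mul_le_mul_left 2 ?_)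
        refine Set.ncard_le_ncard ?_ ((Set.not_infinite.1 (hQI n a ha)).subset fun w hw => hw.1)
        rintro b ⟨g1, g2, g3⟩
        refine ⟨g1, g2, ?_⟩
        rw [mA _ n a ha] at g3 ⊢
        rcases g2 with g2 | g2
        · rw [mI _ b g2] at g3 ⊢
          have hbw : b ≠ w := by
            rintro rfl
            exact g3 (hn.2 a ha g1.symm).symm
          rw [hz2 b hbw]; exact g3
        · rw [mA _ n b g2] at g3 ⊢
          exact g3
      · intro u hu huX
        have huw : u ≠ w := by rintro rfl; exact huX hwX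
        exact hpers N N' z' z'' {w} u hu (Set.finite_singleton w) hz3 (hz2 u huw) hNN (h3 u hu huX)
      · have hsub : {v | v ∈ X ∧ II v ∧ ¬ (O N' z'' v).Infinite}
            ⊆ {v | v ∈ X ∧ II v ∧ ¬ (O N z' v).Infinite} \ {w} := by
          rintro v ⟨g1, g2, g3⟩
          have hvw : v ≠ w := by
            rintro rfl
            apply g3
            have h5 : (⋃ n ∈ N'ᶜ, (Q n).1 ∩ G.neighborSet v).Finite :=
              hN'f.biUnion fun n _ => htr n v hw
            refine (Set.Infinite.sdiff hwII ((Set.Finite.union hwO h5).union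
              (Set.finite_singleton v))).mono ?_
            rintro y ⟨⟨k1, k2⟩, k3⟩
            rw [Set.mem_union, Set.mem_union, not_or, not_or] at k3
            obtain ⟨⟨k3, k4⟩, k5⟩ := k3
            rcases k2 with k2 | ⟨n, -, hy⟩
            · refine ⟨k1, Or.inl k2, ?_⟩
              have : mix z' y = z' v := by
                by_contra hne
                exact k3 ⟨k1, Or.inl k2, hne⟩
              rw [mI _ y k2] at this ⊢
              rw [hz2 y k5, hz1, this]; simp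
            · have hnN : n ∈ N' := by
                by_contra hnN
                exact k4 (Set.mem_biUnion (show n ∈ N'ᶜ from hnN) ⟨hy, k1⟩)
              refine ⟨k1, Or.inr ⟨n, hnN, hy⟩, ?_⟩
              rw [mA _ n y hy, hnN.2 y hy k1, hz1]; simp
          refine ⟨⟨g1, g2, fun hh => g3 ?_⟩, hvw⟩
          exact hpers N N' z' z'' {w} v (hXI v g1) (Set.finite_singleton w) hz3 (hz2 v hvw) hNN hh
        have hmem : w ∈ {v | v ∈ X ∧ II v ∧ ¬ (O N z' v).Infinite} :=
          ⟨hwX, hwII, Set.not_infinite.2 hwO⟩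
        have e1 := Set.encard_le_encard hsub
        have e2 := Set.encard_sdiff_singleton_add_one hmem
        have e3 : ({v | v ∈ X ∧ II v ∧ ¬ (O N z' v).Infinite} \ {w}).encard + 1
            ≤ (k : ℕ∞) + 1 := by
          rw [e2]; simpa using h4
        have e4 := (ENat.add_le_add_iff_right (by simp : (1 : ℕ∞) ≠ ⊤)).1 e3
        exact e1.trans e4
  have hbf : {w | w ∈ X ∧ II w ∧ ¬ (O Set.univ z w).Infinite}.Finite := hXf.subset fun w hw => hw.1
  obtain ⟨N, z', p1, p2, p3, p4⟩ := phase1 hbf.toFinset.card Set.univ z (by simp) hC0 hstart (by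
    rw [hbf.encard_eq_coe_toFinset_card])
  -- the other exceptional vertices
  let W : Set V := {w | w ∈ X ∧ ¬ II w}
  have hWf : W.Finite := hXf.subset fun w hw => hw.1
  have hWI : ∀ w ∈ W, Inf G w := fun w hw => hXI w hw.1
  let N2 : Set ℕ := {n | n ∈ N ∧ ∀ w ∈ W, ∀ y ∈ (Q n).1, ¬ G.Adj w y}
  have hN2 : (N \ N2).Finite := by
    have h1 : (⋃ w ∈ W, {y | G.Adj w y ∧ (Inf G y ∨ y ∈ AN Set.univ)}).Finite :=
      hWf.biUnion fun w hw => Set.not_infinite.1 hw.2
    refine (hidx _ h1).subset ?_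
    rintro n ⟨hn, hn'⟩
    have : ¬ ∀ w ∈ W, ∀ y ∈ (Q n).1, ¬ G.Adj w y := fun h => hn' ⟨hn, h⟩
    push Not at this
    obtain ⟨w, hw, y, hy, hwy⟩ := this
    exact ⟨y, hy, Set.mem_biUnion hw ⟨hwy, Or.inr ⟨n, Set.mem_univ _, hy⟩⟩⟩
  have hAI : ∀ v ∈ AN N2, ¬ Inf G v := by
    rintro v ⟨n, -, hn⟩
    exact hQI n v hn
  obtain ⟨c, hc1, hc2⟩ := exists_TMr (G := G) (AN N2) (mix z')
  have hbf2 : {u | u ∈ W ∧ ¬ Happy G c u}.Finite := hWf.subset fun w hw => hw.1
  obtain ⟨c', k1, k2, k3⟩ := TMr.repair hAI hWI hbf2.toFinset.card c hc2 (by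
    rw [hbf2.encard_eq_coe_toFinset_card])
  have e1 : ∀ v, v ∈ AN N2 ∨ (Inf G v ∧ v ∉ W) → c' v = mix z' v := fun v hv =>
    (k2 v hv).trans (hc1 v (hv.imp_right fun h => h.1))
  refine ⟨c', unfriendly_of_stab (fun v hv => ?_) fun u hu => ?_⟩
  · by_cases hvA : v ∈ AN N2
    · obtain ⟨n, hn, hvn⟩ := hvA
      rw [stab_iff_deg hv]
      refine (p2 n hn.1 v hvn).trans (Nat.mul_le_mul_left 2 ?_)
      refine Set.ncard_le_ncard ?_ ((Set.not_infinite.1 hv).subset fun w hw => hw.1)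
      rintro b ⟨g1, g2, g3⟩
      refine ⟨g1, ?_⟩
      rw [e1 v (Or.inl ⟨n, hn, hvn⟩), e1 b ?_]
      · exact g3
      · rcases g2 with g2 | g2
        · exact Or.inr ⟨g2, fun hbW => hn.2 b hbW v hvn g1.symm⟩
        · exact Or.inl ⟨n, hn, g2⟩
    · rw [stab_iff _ hv]
      refine k1 {v} fun x hx => ?_
      rw [Finset.mem_singleton] at hx
      subst hx
      exact ⟨hvA, hv⟩
  · by_cases huW : u ∈ W
    · exact k3 u huW
    have huO : (O N z' u).Infinite := by
      by_cases huX : u ∈ X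
      · exact p4 u huX (by_contra fun h => huW ⟨huX, h⟩)
      · exact p3 u hu huX
    have huO2 := hpers N N2 z' z' ∅ u hu Set.finite_empty (fun _ _ => rfl) rfl hN2 huO
    refine (huO2.sdiff hWf).mono ?_
    rintro y ⟨⟨g1, g2, g3⟩, g4⟩
    refine ⟨g1, ?_⟩
    rw [e1 u (Or.inr ⟨hu, huW⟩), mI _ u hu, e1 y ?_]
    · exact g3
    · rcases g2 with g2 | g2
      · exact Or.inr ⟨g2, g4⟩
      · exact Or.inl g2

end UnfD
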