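import Pool.Agent.Work.MP_1aab6d_deg4_helper61.Main

/-!
# The kill lemma
-/

set_option autoImplicit false

namespace UnfD

open Finset Classical UnfT

section flip

variable {α : Type*}

/-- Flip the state on `Y`. -/
noncomputable def flf (Y : Finset α) (s : α → Bool) : α → Bool :=
  fun a => if a ∈ Y then !(s a) else s a

lemma HH_split [DecidableEq α] {C Y : Finset α} {J : α → α → ℤ} {h : α → ℤ}
    (hJ : ∀ a ∈ C, ∀ b ∈ C, J a b = J b a) (hY : Y ⊆ C) (s : α → Bool) :
    HH C J h s = ∑ v ∈ Y, sg (s v) * (∑ a ∈ Y, J v a * sg (s a))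
      + 2 * ∑ v ∈ Y, sg (s v) * (∑ a ∈ C \ Y, J v a * sg (s a) + h v)
      + ∑ v ∈ C \ Y, sg (s v) * (∑ a ∈ C \ Y, J v a * sg (s a) + 2 * h v) := by
  have hin : ∀ v, ∑ a ∈ C, J v a * sg (s a)
      = ∑ a ∈ C \ Y, J v a * sg (s a) + ∑ a ∈ Y, J v a * sg (s a) := fun v =>
    (Finset.sum_sdiff hY).symm
  have hcross : ∑ v ∈ C \ Y, sg (s v) * (∑ a ∈ Y, J v a * sg (s a))
      = ∑ v ∈ Y, sg (s v) * (∑ a ∈ C \ Y, J v a * sg (s a)) := by
    simp_rw [Finset.mul_sum]
    rw [Finset.sum_comm]
    refine Finset.sum_congr rfl fun v hv => Finset.sum_congr rfl fun a ha => ?_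
    rw [hJ a (mem_sdiff.1 ha).1 v (hY hv)]; ring
  unfold HH
  rw [← Finset.sum_sdiff hY]
  have e1 : ∑ v ∈ C \ Y, sg (s v) * (∑ a ∈ C, J v a * sg (s a) + 2 * h v)
      = ∑ v ∈ C \ Y, sg (s v) * (∑ a ∈ C \ Y, J v a * sg (s a) + 2 * h v)
        + ∑ v ∈ C \ Y, sg (s v) * (∑ a ∈ Y, J v a * sg (s a)) := by
    rw [← Finset.sum_add_distrib]
    refine Finset.sum_congr rfl fun v _ => ?_
    rw [hin v]; ring
  have e2 : ∑ v ∈ Y, sg (s v) * (∑ a ∈ C, J v a * sg (s a) + 2 * h v)
      = ∑ v ∈ Y, sg (s v) * (∑ a ∈ Y, J v a * sg (s a))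
        + (2 * ∑ v ∈ Y, sg (s v) * (∑ a ∈ C \ Y, J v a * sg (s a) + h v)
        - ∑ v ∈ Y, sg (s v) * (∑ a ∈ C \ Y, J v a * sg (s a))) := by
    rw [Finset.mul_sum, ← Finset.sum_sub_distrib, ← Finset.sum_add_distrib]
    refine Finset.sum_congr rfl fun v _ => ?_
    rw [hin v]; ring
  rw [e1, e2, hcross]
  ring

lemma HH_flf [DecidableEq α] {C Y : Finset α} {J : α → α → ℤ} {h : α → ℤ}
    (hJ : ∀ a ∈ C, ∀ b ∈ C, J a b = J b a) (hY : Y ⊆ C) (s : α → Bool) :
    HH C J h (flf Y s) = HH C J h s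
      - 4 * ∑ v ∈ Y, sg (s v) * (∑ a ∈ C \ Y, J v a * sg (s a) + h v) := by
  have f1 : ∀ a ∈ Y, sg (flf Y s a) = - sg (s a) := fun a ha => by
    rw [flf, if_pos ha, sg_not]
  have f2 : ∀ a ∈ C \ Y, sg (flf Y s a) = sg (s a) := fun a ha => by
    rw [flf, if_neg (mem_sdiff.1 ha).2]
  rw [HH_split hJ hY (flf Y s), HH_split hJ hY s]
  have e1 : ∑ v ∈ Y, sg (flf Y s v) * (∑ a ∈ Y, J v a * sg (flf Y s a))
      = ∑ v ∈ Y, sg (s v) * (∑ a ∈ Y, J v a * sg (s a)) := by
    refine Finset.sum_congr rfl fun v hv => ?_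
    rw [f1 v hv, Finset.sum_congr rfl fun a ha => by rw [f1 a ha]]
    rw [show ∑ a ∈ Y, J v a * -sg (s a) = - ∑ a ∈ Y, J v a * sg (s a) by
      rw [← Finset.sum_neg_distrib]; exact Finset.sum_congr rfl fun a _ => by ring]
    ring
  have e2 : ∑ v ∈ Y, sg (flf Y s v) * (∑ a ∈ C \ Y, J v a * sg (flf Y s a) + h v)
      = - ∑ v ∈ Y, sg (s v) * (∑ a ∈ C \ Y, J v a * sg (s a) + h v) := by
    rw [← Finset.sum_neg_distrib]
    refine Finset.sum_congr rfl fun v hv => ?_
    rw [f1 v hv, Finset.sum_congr rfl fun a ha => by rw [f2 a ha]]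
    ring
  have e3 : ∑ v ∈ C \ Y, sg (flf Y s v) * (∑ a ∈ C \ Y, J v a * sg (flf Y s a) + 2 * h v)
      = ∑ v ∈ C \ Y, sg (s v) * (∑ a ∈ C \ Y, J v a * sg (s a) + 2 * h v) := by
    refine Finset.sum_congr rfl fun v hv => ?_
    rw [f2 v hv, Finset.sum_congr rfl fun a ha => by rw [f2 a ha]]
  rw [e1, e2, e3]
  ring

/-- A minimiser can not be improved by flipping a set. -/
lemma HH_min_flf [DecidableEq α] {C Y : Finset α} {J : α → α → ℤ} {h : α → ℤ}
    (hJ : ∀ a ∈ C, ∀ b ∈ C, J a b = J b a) (hY : Y ⊆ C) {s : α → Bool}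
    (hs : ∀ s', HH C J h s ≤ HH C J h s') :
    ∑ v ∈ Y, sg (s v) * (∑ a ∈ C \ Y, J v a * sg (s a) + h v) ≤ 0 := by
  have := hs (flf Y s)
  rw [HH_flf hJ hY] at this
  linarith

end flip

variable {V : Type*} {G : SimpleGraph V}

variable (G) in
/-- The degree is at most six or equal to eight. -/
def Thin (v : V) : Prop := (G.neighborSet v).encard ≤ 6 ∨ (G.neighborSet v).encard = 8

lemma Thin.not_inf {v : V} (h : Thin G v) : ¬ Inf G v := by
  refine Set.not_infinite.2 ?_
  rcases h with h | h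
  · exact Set.finite_of_encard_le_coe h
  · exact Set.finite_of_encard_eq_coe h

variable (G) in
/-- The parity weight of a vertex. -/
noncomputable def qq (v : V) : ℤ := if Even (nb G v).card then 2 else 1

lemma card_nb {v : V} (h : ¬ Inf G v) : (nb G v).card = (G.neighborSet v).ncard := by
  rw [← Set.ncard_coe_finset]
  congr 1
  ext w
  rw [Finset.mem_coe, mem_nb G h, SimpleGraph.mem_neighborSet]

lemma Thin.bound {v : V} (h : Thin G v) {k : ℕ} (hk : 2 * k < (nb G v).card) :
    (k : ℤ) ≤ qq G v + 1 := by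
  have hn := h.not_inf
  have hf : (G.neighborSet v).Finite := Set.not_infinite.1 hn
  rw [card_nb hn] at hk
  unfold qq
  rw [card_nb hn]
  have h1 : (G.neighborSet v).ncard ≤ 6 ∨ (G.neighborSet v).ncard = 8 := by
    rcases h with h | h
    · left
      rw [← hf.cast_ncard_eq] at h
      exact_mod_cast h
    · right
      rw [← hf.cast_ncard_eq] at h
      exact_mod_cast h
  split_ifs with he
  · have : k ≤ 3 := by omega
    have : (k : ℤ) ≤ 3 := by exact_mod_cast this
    linarith
  · have : k ≤ 2 := by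
      rcases h1 with h1 | h1
      · have h2 : (G.neighborSet v).ncard ≠ 6 := by
          intro h3; rw [h3] at he; exact he (by decide)
        omega
      · rw [h1] at he; exact absurd (by decide) he
    have : (k : ℤ) ≤ 2 := by exact_mod_cast this
    linarith

/-- Two-copy state. -/
theorem exists_pair {C : Finset V} (hC : ∀ v ∈ C, ¬ Inf G v) (z zb : V → Bool) :
    ∃ c1 c2 : V → Bool, (∀ v, v ∉ C → c1 v = z v) ∧ (∀ v, v ∉ C → c2 v = zb v) ∧
      (∀ v ∈ C, Stab G c1 v) ∧ (∀ v ∈ C, Stab G c2 v) ∧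
      ∀ Y : Finset V, Y ⊆ C → (∀ v ∈ Y, c1 v = c2 v) →
        ∑ v ∈ Y, qq G v ≤ ∑ v ∈ Y, ∑ b ∈ (nb G v \ Y).filter (fun b => c1 b = c2 b),
          - (sg (c1 v) * sg (c1 b)) := by
  let M : ℤ := C.card + 1
  have hM : 0 < M := by positivity
  let cc : V → ℤ := fun v => M * qq G v - 1
  let zz : Bool → V → Bool := fun i => if i then z else zb
  let C2 : Finset (V × Bool) := C ×ˢ Finset.univ
  let J : V × Bool → V × Bool → ℤ := fun x y =>
    if x.2 = y.2 then (if G.Adj x.1 y.1 then M else 0) else (if x.1 = y.1 then cc x.1 else 0)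
  let h : V × Bool → ℤ := fun x => M * ∑ b ∈ nb G x.1 \ C, sg (zz x.2 b)
  obtain ⟨s, -, hmin⟩ := exists_HH_min C2 J h (fun _ => false)
  let c : Bool → V → Bool := fun i v => if v ∈ C then s (v, i) else zz i v
  have cC : ∀ i, ∀ v ∈ C, c i v = s (v, i) := fun i v hv => if_pos hv
  have cN : ∀ i v, v ∉ C → c i v = zz i v := fun i v hv => if_neg hv
  have hJs : ∀ a ∈ C2, ∀ b ∈ C2, J a b = J b a := by
    intro a _ b _
    simp only [J]
    by_cases h1 : a.2 = b.2
    · rw [if_pos h1, if_pos h1.symm, G.adj_comm]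
    · rw [if_neg h1, if_neg (Ne.symm h1)]
      by_cases h2 : a.1 = b.1
      · rw [if_pos h2, if_pos h2.symm, h2]
      · rw [if_neg h2, if_neg (Ne.symm h2)]
  -- the general inequality
  have key : ∀ (i : Bool) (Y : Finset V), Y ⊆ C →
      ∑ v ∈ Y, sg (c i v) * (M * ∑ b ∈ nb G v \ Y, sg (c i b) + cc v * sg (c (!i) v)) ≤ 0 := by
    intro i Y hY
    have hYi : Y ×ˢ {i} ⊆ C2 := by
      intro x hx
      rw [mem_product] at hx
      exact mem_product.2 ⟨hY hx.1, mem_univ _⟩
    have h1 := HH_min_flf hJs hYi hmin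
    rw [Finset.sum_product] at h1
    simp only [Finset.sum_singleton] at h1
    refine le_trans (le_of_eq ?_) h1
    refine Finset.sum_congr rfl fun v hv => ?_
    have hvC := hY hv
    rw [cC i v hvC]
    congr 1
    -- the inner sum
    have e0 : C2 \ (Y ×ˢ {i}) = ((C \ Y) ×ˢ {i}) ∪ (C ×ˢ {!i}) := by
      ext ⟨a, j⟩
      simp only [C2, mem_sdiff, mem_product, mem_univ, and_true, mem_singleton, mem_union]
      cases i <;> cases j <;> simp
    have hd : Disjoint ((C \ Y) ×ˢ ({i} : Finset Bool)) (C ×ˢ ({!i} : Finset Bool)) := by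
      rw [Finset.disjoint_left]
      rintro ⟨a, j⟩ h1 h2
      simp only [mem_product, mem_singleton] at h1 h2
      have := h1.2.symm.trans h2.2
      cases i <;> simp at this
    rw [e0, Finset.sum_union hd, Finset.sum_product, Finset.sum_product]
    simp only [Finset.sum_singleton]
    have e1 : ∑ a ∈ C \ Y, J (v, i) (a, i) * sg (s (a, i))
        = M * ∑ b ∈ (nb G v \ Y) ∩ C, sg (c i b) := by
      have : ∀ a ∈ C \ Y, J (v, i) (a, i) * sg (s (a, i))
          = if G.Adj v a then M * sg (s (a, i)) else 0 := by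
        intro a _
        simp only [J, if_true]
        split_ifs <;> simp
      rw [Finset.sum_congr rfl this, ← Finset.sum_filter, Finset.mul_sum]
      refine Finset.sum_congr ?_ ?_
      · ext b
        simp only [mem_filter, mem_sdiff, mem_inter, mem_nb G (hC v hvC)]
        tauto
      · intro b hb
        rw [cC i b (mem_inter.1 hb).2]
    have e2 : ∑ a ∈ C, J (v, i) (a, !i) * sg (s (a, !i)) = cc v * sg (c (!i) v) := by
      have hne : i ≠ !i := by cases i <;> simp
      have : ∀ a ∈ C, J (v, i) (a, !i) * sg (s (a, !i))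
          = if a = v then cc v * sg (s (v, !i)) else 0 := by
        intro a _
        simp only [J, if_neg hne]
        by_cases hav : a = v
        · subst hav; rw [if_pos rfl, if_pos rfl]
        · rw [if_neg (Ne.symm hav), if_neg hav, zero_mul]
      rw [Finset.sum_congr rfl this, Finset.sum_ite_eq', if_pos hvC, cC _ v hvC]
    have e3 : h (v, i) = M * ∑ b ∈ (nb G v \ Y) \ C, sg (c i b) := by
      simp only [h]
      congr 1
      refine Finset.sum_congr ?_ ?_
      · ext b
        simp only [mem_sdiff]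
        constructor
        · rintro ⟨h1, h2⟩
          exact ⟨⟨h1, fun h => h2 (hY h)⟩, h2⟩
        · rintro ⟨⟨h1, -⟩, h2⟩
          exact ⟨h1, h2⟩
      · intro b hb
        rw [cN i b (mem_sdiff.1 hb).2]
    have e4 : ∑ b ∈ nb G v \ Y, sg (c i b) = ∑ b ∈ (nb G v \ Y) ∩ C, sg (c i b)
        + ∑ b ∈ (nb G v \ Y) \ C, sg (c i b) := by
      rw [← Finset.sum_union]
      · congr 1
        ext b
        simp only [mem_union, mem_inter, mem_sdiff]
        tauto
      · rw [Finset.disjoint_left]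
        intro b h1 h2
        exact (mem_sdiff.1 h2).2 (mem_inter.1 h1).2
    rw [e1, e2, e3, e4]
    ring
  have hstab : ∀ i, ∀ v ∈ C, Stab G (c i) v := by
    intro i v hv
    refine stab_of_sum (hC v hv) ?_
    have h1 := key i {v} (singleton_subset_iff.2 hv)
    rw [Finset.sum_singleton] at h1
    have h2 : nb G v \ {v} = nb G v := by
      ext b
      rw [mem_sdiff, Finset.mem_singleton, mem_nb G (hC v hv)]
      refine ⟨fun h => h.1, fun h => ⟨h, ?_⟩⟩
      rintro rfl
      exact G.loopless.irrefl _ h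
    rw [h2] at h1
    set T := ∑ b ∈ nb G v, sg (c i b) with hT
    have hpar := sum_sg_parity (c i) (nb G v)
    rw [← hT] at hpar
    have h3 : M * (sg (c i v) * T) ≤ M * qq G v - 1 := by
      have h4 : sg (c i v) * (M * T + cc v * sg (c (!i) v))
          = M * (sg (c i v) * T) + cc v * (sg (c i v) * sg (c (!i) v)) := by ring
      rw [h4] at h1
      have h5 : - 1 ≤ sg (c i v) * sg (c (!i) v) := by
        rw [sg_mul]; split_ifs <;> norm_num
      have h6 : 0 ≤ cc v := by
        have : (1 : ℤ) ≤ qq G v := by unfold qq; split_ifs <;> norm_num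
        have hC1 : (1 : ℤ) ≤ M := by omega
        simp only [cc]
        nlinarith
      have h7 : cc v = M * qq G v - 1 := rfl
      nlinarith
    have h8 : sg (c i v) * T < qq G v := by
      by_contra hcon
      push Not at hcon
      have := mul_le_mul_of_nonneg_left hcon hM.le
      linarith
    have h9 : (sg (c i v) * T) % 2 = ((nb G v).card : ℤ) % 2 := by
      rw [← hpar]
      have : sg (c i v) = 1 ∨ sg (c i v) = -1 := by cases c i v <;> simp [sg]
      rcases this with h | h <;> rw [h] <;> omega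
    unfold qq at h8
    split_ifs at h8 with he
    · obtain ⟨k, hk⟩ := he
      rw [hk] at h9
      push_cast at h9
      omega
    · rw [Nat.not_even_iff_odd] at he
      obtain ⟨k, hk⟩ := he
      rw [hk] at h9
      push_cast at h9
      omega
  refine ⟨c true, c false, fun v hv => cN true v hv, fun v hv => cN false v hv, hstab true,
    hstab false, fun Y hY hYe => ?_⟩
  have k1 := key true Y hY
  have k2 := key false Y hY
  simp only [Bool.not_true, Bool.not_false] at k1 k2
  have hsum : M * (∑ v ∈ Y, ∑ b ∈ (nb G v \ Y).filter (fun b => c true b = c false b),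
      (sg (c true v) * sg (c true b))) + ∑ v ∈ Y, cc v ≤ 0 := by
    have e : 2 * (M * (∑ v ∈ Y, ∑ b ∈ (nb G v \ Y).filter (fun b => c true b = c false b),
        (sg (c true v) * sg (c true b))) + ∑ v ∈ Y, cc v)
        = ∑ v ∈ Y, sg (c true v) * (M * ∑ b ∈ nb G v \ Y, sg (c true b) + cc v * sg (c false v))
        + ∑ v ∈ Y, sg (c false v) * (M * ∑ b ∈ nb G v \ Y, sg (c false b)
          + cc v * sg (c true v)) := by
      rw [← Finset.sum_add_distrib, Finset.mul_sum, ← Finset.sum_add_distrib, Finset.mul_sum]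
      refine Finset.sum_congr rfl fun v hv => ?_
      have hv' := hYe v hv
      have e1 : ∑ b ∈ nb G v \ Y, sg (c true b) + ∑ b ∈ nb G v \ Y, sg (c false b)
          = 2 * ∑ b ∈ (nb G v \ Y).filter (fun b => c true b = c false b), sg (c true b) := by
        rw [← Finset.sum_add_distrib, Finset.mul_sum, Finset.sum_filter]
        refine Finset.sum_congr rfl fun b _ => ?_
        by_cases hb : c true b = c false b
        · rw [if_pos hb, hb]; ring
        · rw [if_neg hb]
          revert hb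
          cases c true b <;> cases c false b <;> simp [sg]
      rw [← hv']
      have e2 := sg_mul_self (c true v)
      rw [← Finset.mul_sum]
      linear_combination (-(sg (c true v)) * M) * e1 - 2 * cc v * e2
    have := add_nonpos k1 k2
    rw [← e] at this
    linarith
  have hcc : ∑ v ∈ Y, cc v = M * ∑ v ∈ Y, qq G v - Y.card := by
    simp only [cc]
    rw [Finset.sum_sub_distrib, ← Finset.mul_sum]
    simp
  have hcard : (Y.card : ℤ) < M := by
    have := Finset.card_le_card hY
    simp only [M]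
    have : (Y.card : ℤ) ≤ C.card := by exact_mod_cast this
    linarith
  have hneg : ∑ v ∈ Y, ∑ b ∈ (nb G v \ Y).filter (fun b => c true b = c false b),
      - (sg (c true v) * sg (c true b)) = - ∑ v ∈ Y,
      ∑ b ∈ (nb G v \ Y).filter (fun b => c true b = c false b), (sg (c true v) * sg (c true b)) := by
    rw [← Finset.sum_neg_distrib]
    exact Finset.sum_congr rfl fun v _ => by rw [Finset.sum_neg_distrib]
  rw [hneg]
  rw [hcc] at hsum
  set A := ∑ v ∈ Y, ∑ b ∈ (nb G v \ Y).filter (fun b => c true b = c false b),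
    (sg (c true v) * sg (c true b)) with hA
  set B := ∑ v ∈ Y, qq G v with hB
  by_contra hcon
  push Not at hcon
  have h1 : - A + 1 ≤ B := by omega
  have := mul_le_mul_of_nonneg_left h1 hM.le
  nlinarith

end UnfD
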