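import Pool.Agent.Work.MP_1aab6d_thin_helper61.KL

/-!
# The kill lemma, second part
-/

set_option autoImplicit false

namespace UnfD

open Finset Classical UnfT UnfS

variable {V : Type*} {G : SimpleGraph V}

variable (G) in
/-- Number of the neighbours of `v` in `Y` of the other colour. -/
noncomputable def oo (c : V → Bool) (Y : Finset V) (v : V) : ℕ :=
  ((nb G v).filter (fun b => b ∈ Y ∧ c b ≠ c v)).card

variable (G) in
/-- Number of the neighbours of `v` in `K` and `S` of the other colour after the flip of `u`. -/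
noncomputable def kk (c : V → Bool) (K : Finset V) (S : Set V) (u v : V) : ℕ :=
  ((nb G v).filter (fun b => (b ∈ K ∨ b ∈ S) ∧ fp u c b ≠ c v)).card

lemma not_mem_nb_self {v : V} (hv : ¬ Inf G v) : v ∉ nb G v := fun h =>
  G.loopless.irrefl _ ((mem_nb G hv).1 h)

lemma mem_nb_comm {v w : V} (hv : ¬ Inf G v) (hw : ¬ Inf G w) : v ∈ nb G w ↔ w ∈ nb G v := by
  rw [mem_nb G hv, mem_nb G hw, G.adj_comm]

/-- Adding a vertex. -/
lemma sum_oo_insert {c : V → Bool} {Y : Finset V} {v : V} (hF : ∀ w ∈ insert v Y, ¬ Inf G w)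
    (hv : v ∉ Y) : ∑ w ∈ insert v Y, oo G c (insert v Y) w
      = ∑ w ∈ Y, oo G c Y w + 2 * oo G c (insert v Y) v := by
  rw [Finset.sum_insert hv]
  have hvF := hF v (mem_insert_self _ _)
  have e1 : ∀ w ∈ Y, oo G c (insert v Y) w
      = oo G c Y w + if (w ∈ nb G v ∧ c w ≠ c v) then 1 else 0 := by
    intro w hw
    have hwF := hF w (mem_insert_of_mem hw)
    unfold oo
    by_cases h : w ∈ nb G v ∧ c w ≠ c v
    · rw [if_pos h]
      have : (nb G w).filter (fun b => b ∈ insert v Y ∧ c b ≠ c w)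
          = insert v ((nb G w).filter (fun b => b ∈ Y ∧ c b ≠ c w)) := by
        ext b
        simp only [mem_filter, mem_insert]
        constructor
        · rintro ⟨h1, h2 | h2, h3⟩
          · exact Or.inl h2
          · exact Or.inr ⟨h1, h2, h3⟩
        · rintro (h1 | h1)
          · subst h1
            exact ⟨(mem_nb_comm hvF hwF).2 h.1, Or.inl rfl, h.2.symm⟩
          · exact ⟨h1.1, Or.inr h1.2.1, h1.2.2⟩
      rw [this, card_insert_of_notMem]
      intro h'
      exact hv (mem_filter.1 h').2.1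
    · rw [if_neg h, add_zero]
      congr 1
      ext b
      simp only [mem_filter, mem_insert]
      constructor
      · rintro ⟨h1, h2 | h2, h3⟩
        · subst h2
          exact absurd ⟨(mem_nb_comm hvF hwF).1 h1, h3.symm⟩ h
        · exact ⟨h1, h2, h3⟩
      · rintro ⟨h1, h2, h3⟩
        exact ⟨h1, Or.inr h2, h3⟩
  rw [Finset.sum_congr rfl e1, Finset.sum_add_distrib]
  have e2 : ∑ w ∈ Y, (if (w ∈ nb G v ∧ c w ≠ c v) then 1 else 0) = oo G c (insert v Y) v := by
    rw [← Finset.card_filter]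
    unfold oo
    congr 1
    ext b
    simp only [mem_filter, mem_insert]
    constructor
    · rintro ⟨h1, h2, h3⟩
      exact ⟨h2, Or.inr h1, h3⟩
    · rintro ⟨h1, h2 | h2, h3⟩
      · subst h2; exact absurd h1 (not_mem_nb_self hvF)
      · exact ⟨h2, h1, h3⟩
  rw [e2]
  ring

theorem kill {C : Finset V} (hT : ∀ v ∈ C, Thin G v) {S : Set V} (hSC : ∀ v ∈ S, v ∉ C) {u : V}
    (huS : u ∈ S) {z zb : V → Bool} (hz : ∀ v ∈ S, zb v = z v)
    (hz' : ∀ v, v ∉ S → v ∉ C → zb v ≠ z v)
    (k1 : ∀ s : V → Bool, (∀ v, v ∉ C → s v = z v) → (∀ v ∈ C, Stab G s v) →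
      ∀ y ∈ C, G.Adj u y → s y = z u)
    (k2 : ∀ s : V → Bool, (∀ v, v ∉ C → s v = zb v) → (∀ v ∈ C, Stab G s v) →
      ∀ y ∈ C, G.Adj u y → s y = z u)
    {y : V} (hy : y ∈ C) (huy : G.Adj u y) :
    ∃ (K : Finset V) (ρ : V → Bool), K ⊆ C ∧ (∀ v, v ∉ C → ρ v = z v) ∧
      (∀ v ∈ K, (nb G v).card ≤ 2 * kk G ρ K S u v) ∧ ∃ y' ∈ K, G.Adj u y' ∧ ρ y' = z u := by
  have hCF : ∀ v ∈ C, ¬ Inf G v := fun v hv => (hT v hv).not_inf
  have huC : u ∉ C := hSC u huS
  obtain ⟨c1, c2, a1, a2, s1, s2, hineq⟩ := exists_pair (G := G) hCF z zb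
  have hN1 := k1 c1 a1 s1
  have hN2 := k2 c2 a2 s2
  have hu1 : c1 u = z u := a1 u huC
  have hu2 : c2 u = z u := (a2 u huC).trans (hz u huS)
  let X : Finset V := C.filter (fun v => c1 v = c2 v)
  have hXC : X ⊆ C := Finset.filter_subset _ _
  let Fr : Finset V → Prop := fun K => ∀ v ∈ K, (nb G v).card ≤ 2 * kk G c1 K S u v
  obtain ⟨K, hK, hKmax⟩ := Finset.exists_max_image (X.powerset.filter Fr) Finset.card
    ⟨∅, mem_filter.2 ⟨Finset.empty_mem_powerset X, fun v hv => absurd hv (notMem_empty v)⟩⟩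
  rw [mem_filter, mem_powerset] at hK
  obtain ⟨hKX, hKF⟩ := hK
  by_cases hcase : ∃ y' ∈ K, G.Adj u y'
  · obtain ⟨y', h1, h2⟩ := hcase
    exact ⟨K, c1, hKX.trans hXC, a1, hKF, y', h1, h2, hN1 y' (hXC (hKX h1)) h2⟩
  exfalso
  push Not at hcase
  let R : Finset V := X \ K
  have hRC : R ⊆ C := Finset.sdiff_subset.trans hXC
  have hyR : y ∈ R := by
    refine mem_sdiff.2 ⟨mem_filter.2 ⟨hy, ?_⟩, fun h => hcase y h huy⟩
    rw [hN1 y hy huy, hN2 y hy huy]
  -- peeling
  have peel : ∀ R' : Finset V, R' ⊆ R → R'.Nonempty → ∃ v ∈ R',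
      2 * ((nb G v).filter (fun b => (b ∈ K ∨ b ∈ S ∨ b ∈ R') ∧ fp u c1 b ≠ c1 v)).card
        < (nb G v).card := by
    intro R' hR' hne
    have hnF : ¬ Fr (K ∪ R') := by
      intro hF
      have h1 : K ∪ R' ∈ X.powerset.filter Fr :=
        mem_filter.2 ⟨mem_powerset.2 (Finset.union_subset hKX (hR'.trans Finset.sdiff_subset)), hF⟩
      have h2 := hKmax _ h1
      have hd : Disjoint K R' := by
        rw [Finset.disjoint_left]
        intro a ha ha'
        exact (mem_sdiff.1 (hR' ha')).2 ha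
      rw [Finset.card_union_of_disjoint hd] at h2
      have := Finset.card_pos.2 hne
      omega
    simp only [Fr] at hnF
    push Not at hnF
    obtain ⟨v, hv, hlt⟩ := hnF
    rcases mem_union.1 hv with hvK | hvR
    · exfalso
      have h1 := hKF v hvK
      have h2 : kk G c1 K S u v ≤ kk G c1 (K ∪ R') S u v := by
        unfold kk
        refine Finset.card_le_card fun b hb => ?_
        rw [mem_filter] at hb ⊢
        exact ⟨hb.1, hb.2.1.imp_left fun h => mem_union_left _ h, hb.2.2⟩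
      omega
    · refine ⟨v, hvR, lt_of_eq_of_lt ?_ hlt⟩
      unfold kk
      congr 2
      ext b
      simp only [mem_filter, mem_union]
      tauto
  -- the sum
  have psum : ∀ Y' : Finset V, Y' ⊆ R →
      2 * ∑ v ∈ Y', (kk G c1 K S u v : ℤ) + ∑ v ∈ Y', (oo G c1 Y' v : ℤ)
        ≤ 2 * ∑ v ∈ Y', (qq G v + 1) := by
    intro Y'
    induction Y' using Finset.strongInduction with
    | H Y' ih =>
      intro hY'
      rcases Y'.eq_empty_or_nonempty with rfl | hne
      · simp
      obtain ⟨v, hv, hlt⟩ := peel Y' hY' hne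
      have h1 := ih (Y'.erase v) (Finset.erase_ssubset hv) ((Finset.erase_subset _ _).trans hY')
      have hins : insert v (Y'.erase v) = Y' := Finset.insert_erase hv
      have h2 := sum_oo_insert (G := G) (c := c1) (Y := Y'.erase v) (v := v)
        (by rw [hins]; exact fun w hw => hCF w (hRC (hY' hw))) (Finset.notMem_erase v Y')
      rw [hins] at h2
      have h3 : ∑ w ∈ Y', (oo G c1 Y' w : ℤ)
          = ∑ w ∈ Y'.erase v, (oo G c1 (Y'.erase v) w : ℤ) + 2 * (oo G c1 Y' v : ℤ) := by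
        exact_mod_cast h2
      have h4 : ((kk G c1 K S u v + oo G c1 Y' v : ℕ) : ℤ) ≤ qq G v + 1 := by
        refine (hT v (hRC (hY' hv))).bound (lt_of_le_of_lt (Nat.mul_le_mul_left 2 ?_) hlt)
        unfold kk oo
        rw [← Finset.card_union_of_disjoint]
        · refine Finset.card_le_card fun b hb => ?_
          rw [mem_union, mem_filter, mem_filter] at hb
          rw [mem_filter]
          rcases hb with ⟨g1, g2, g3⟩ | ⟨g1, g2, g3⟩
          · exact ⟨g1, g2.elim Or.inl fun h => Or.inr (Or.inl h), g3⟩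
          · refine ⟨g1, Or.inr (Or.inr g2), ?_⟩
            rw [fp_ne]
            · exact g3
            · rintro rfl; exact huC (hRC (hY' g2))
        · rw [Finset.disjoint_left]
          intro b hb hb'
          rw [mem_filter] at hb hb'
          have hbR := hY' hb'.2.1
          rcases hb.2.1 with h | h
          · exact (mem_sdiff.1 hbR).2 h
          · exact hSC b h (hRC hbR)
      have h5 : ∑ w ∈ Y', (kk G c1 K S u w : ℤ)
          = ∑ w ∈ Y'.erase v, (kk G c1 K S u w : ℤ) + kk G c1 K S u v := by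
        rw [← Finset.sum_erase_add _ _ hv]
      have h6 : ∑ w ∈ Y', (qq G w + 1) = ∑ w ∈ Y'.erase v, (qq G w + 1) + (qq G v + 1) := by
        rw [← Finset.sum_erase_add _ _ hv]
      push_cast at h4
      rw [h3, h5, h6]
      linarith
  -- the set `Y`
  obtain ⟨Y, hY, hYmax⟩ := Finset.exists_max_image (R.powerset.filter
    (fun Y => y ∈ Y ∧ 2 * Y.card ≤ ∑ v ∈ Y, oo G c1 Y v + 2)) Finset.card
    ⟨{y}, mem_filter.2 ⟨mem_powerset.2 (singleton_subset_iff.2 hyR), mem_singleton_self y, by simp⟩⟩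
  rw [mem_filter, mem_powerset] at hY
  obtain ⟨hYR, hyY, hYo⟩ := hY
  have hclos : ∀ v ∈ Y, ∀ b ∈ R, b ∉ Y → b ∈ nb G v → c1 b = c1 v := by
    intro v hv b hb hbY hbv
    by_contra hne
    have hF : ∀ w ∈ insert b Y, ¬ Inf G w := by
      intro w hw
      rcases mem_insert.1 hw with rfl | hw
      · exact hCF w (hRC hb)
      · exact hCF w (hRC (hYR hw))
    have h1 := sum_oo_insert (G := G) (c := c1) hF hbY
    have h2 : 1 ≤ oo G c1 (insert b Y) b := by
      unfold oo
      rw [Nat.one_le_iff_ne_zero, ← Nat.pos_iff_ne_zero, Finset.card_pos]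
      refine ⟨v, mem_filter.2 ⟨?_, mem_insert_of_mem hv, fun h => hne h.symm⟩⟩
      exact (mem_nb_comm (hF v (mem_insert_of_mem hv)) (hF b (mem_insert_self _ _))).2 hbv
    have h3 := hYmax (insert b Y) (mem_filter.2 ⟨mem_powerset.2 (Finset.insert_subset hb hYR),
      mem_insert_of_mem hyY, by
        rw [h1, Finset.card_insert_of_notMem hbY]; omega⟩)
    rw [Finset.card_insert_of_notMem hbY] at h3
    omega
  have hYC : Y ⊆ C := hYR.trans hRC
  have hYe : ∀ v ∈ Y, c1 v = c2 v := fun v hv =>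
    (mem_filter.1 (mem_sdiff.1 (hYR hv)).1).2
  have hmain := hineq Y hYC hYe
  have hinner : ∀ v ∈ Y, ∑ b ∈ (nb G v \ Y).filter (fun b => c1 b = c2 b),
      - (sg (c1 v) * sg (c1 b)) ≤ (kk G c1 K S u v : ℤ) - if u ∈ nb G v then 2 else 0 := by
    intro v hv
    have hvF := hCF v (hYC hv)
    set B := (nb G v \ Y).filter (fun b => c1 b = c2 b) with hB
    have e1 : ∑ b ∈ B, - (sg (c1 v) * sg (c1 b))
        = ∑ b ∈ B, ((if c1 b ≠ c1 v then 1 else 0) - (if c1 b = c1 v then (1 : ℤ) else 0)) := by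
      refine Finset.sum_congr rfl fun b _ => ?_
      rw [sg_mul]
      by_cases h : c1 b = c1 v
      · simp [h]
      · rw [if_pos h, if_neg h, if_neg (Ne.symm h)]; norm_num
    have hP : B.filter (fun b => c1 b ≠ c1 v)
        ⊆ (nb G v).filter (fun b => (b ∈ K ∨ b ∈ S) ∧ c1 b ≠ c1 v) := by
      intro b hb
      rw [mem_filter, hB, mem_filter, mem_sdiff] at hb
      obtain ⟨⟨⟨g1, g2⟩, g3⟩, g4⟩ := hb
      refine mem_filter.2 ⟨g1, ?_, g4⟩
      by_cases hbC : b ∈ C
      · left
        by_contra hbK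
        exact g4 (hclos v hv b (mem_sdiff.2 ⟨mem_filter.2 ⟨hbC, g3⟩, hbK⟩) g2 g1)
      · right
        by_contra hbS
        refine hz' b hbS hbC ?_
        rw [← a1 b hbC, ← a2 b hbC]; exact g3.symm
    have hPc : ((B.filter (fun b => c1 b ≠ c1 v)).card : ℤ)
        ≤ ((nb G v).filter (fun b => (b ∈ K ∨ b ∈ S) ∧ c1 b ≠ c1 v)).card := by
      exact_mod_cast Finset.card_le_card hP
    have e2 : ∑ b ∈ B, - (sg (c1 v) * sg (c1 b))
        = ((B.filter (fun b => c1 b ≠ c1 v)).card : ℤ)
          - ((B.filter (fun b => c1 b = c1 v)).card : ℤ) := by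
      rw [e1, Finset.sum_sub_distrib, Finset.card_filter, Finset.card_filter]
      push_cast
      rfl
    rw [e2]
    by_cases huv : u ∈ nb G v
    · rw [if_pos huv]
      have hcv : c1 v = z u := hN1 v (hYC hv) ((mem_nb G hvF).1 huv).symm
      have h1 : u ∈ B.filter (fun b => c1 b = c1 v) := by
        rw [mem_filter, hB, mem_filter, mem_sdiff]
        exact ⟨⟨⟨huv, fun h => huC (hYC h)⟩, by rw [hu1, hu2]⟩, by rw [hu1, hcv]⟩
      have h2 : 1 ≤ (B.filter (fun b => c1 b = c1 v)).card := Finset.card_pos.2 ⟨u, h1⟩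
      have h3 : kk G c1 K S u v
          = ((nb G v).filter (fun b => (b ∈ K ∨ b ∈ S) ∧ c1 b ≠ c1 v)).card + 1 := by
        unfold kk
        have : (nb G v).filter (fun b => (b ∈ K ∨ b ∈ S) ∧ fp u c1 b ≠ c1 v)
            = insert u ((nb G v).filter (fun b => (b ∈ K ∨ b ∈ S) ∧ c1 b ≠ c1 v)) := by
          ext b
          simp only [mem_filter, mem_insert]
          constructor
          · rintro ⟨g1, g2, g3⟩
            by_cases hbu : b = u
            · exact Or.inl hbu
            · rw [fp_ne _ hbu] at g3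
              exact Or.inr ⟨g1, g2, g3⟩
          · rintro (g | ⟨g1, g2, g3⟩)
            · subst g
              refine ⟨huv, Or.inr huS, ?_⟩
              rw [fp_eq, hu1, hcv]; simp
            · have hbu : b ≠ u := by
                rintro rfl
                exact g3 (by rw [hu1, hcv])
              rw [fp_ne _ hbu]
              exact ⟨g1, g2, g3⟩
        rw [this, card_insert_of_notMem]
        intro h
        exact (mem_filter.1 h).2.2 (by rw [hu1, hcv])
      rw [h3]
      push_cast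
      have h2' : (1 : ℤ) ≤ (B.filter (fun b => c1 b = c1 v)).card := by exact_mod_cast h2
      linarith
    · rw [if_neg huv, sub_zero]
      have h3 : kk G c1 K S u v
          = ((nb G v).filter (fun b => (b ∈ K ∨ b ∈ S) ∧ c1 b ≠ c1 v)).card := by
        unfold kk
        congr 1
        refine Finset.filter_congr fun b hb => ?_
        have hbu : b ≠ u := by rintro rfl; exact huv hb
        rw [fp_ne _ hbu]
      rw [h3]
      have : (0 : ℤ) ≤ (B.filter (fun b => c1 b = c1 v)).card := by positivity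
      linarith
  have hT2 := Finset.sum_le_sum hinner
  rw [Finset.sum_sub_distrib] at hT2
  have h2 : (2 : ℤ) ≤ ∑ v ∈ Y, if u ∈ nb G v then 2 else 0 := by
    refine le_trans ?_ (Finset.single_le_sum (f := fun v => if u ∈ nb G v then (2 : ℤ) else 0)
      (fun v _ => by split_ifs <;> norm_num) hyY)
    have : u ∈ nb G y := (mem_nb G (hCF y hy)).2 huy.symm
    show (2 : ℤ) ≤ if u ∈ nb G y then 2 else 0
    rw [if_pos this]
  have h3 := psum Y hYR
  have h4 : (2 : ℤ) * Y.card ≤ ∑ v ∈ Y, (oo G c1 Y v : ℤ) + 2 := by exact_mod_cast hYo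
  have h5 : ∑ v ∈ Y, (qq G v + 1) = ∑ v ∈ Y, qq G v + Y.card := by
    rw [Finset.sum_add_distrib]; simp
  rw [h5] at h3
  linarith

end UnfD
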