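import Pool.Agent.Work.MP_1aab6d_thin_helper61.Dich
import Pool.Agent.Work.MP_1aab6d_thin_helper61.Asel2

/-!
# Bipartite components
-/

set_option autoImplicit false

namespace UnfD

open Classical UnfT UnfS

variable {V : Type*} {G : SimpleGraph V}

variable (G) in
/-- Each vertex of infinite degree has finitely many neighbours in the component of `x`, and the
edges with an end in this component and no end in `E` form a bipartite graph. -/
def TmC (E : Set V) (x : V) : Prop :=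
  ¬ Inf G x ∧ (∀ w, Inf G w → (comp G x ∩ G.neighborSet w).Finite) ∧
    ∃ s : V → Bool, ∀ a ∈ comp G x, ∀ b, G.Adj a b → b ∉ E → s a ≠ s b

lemma ncard_compl_lt {v : V} (hv : ¬ Inf G v) (p : V → Prop)
    (h : 2 * {b | G.Adj v b ∧ p b}.ncard < (G.neighborSet v).ncard) {B : Set V}
    (hB : ∀ b, G.Adj v b → ¬ p b → b ∈ B) :
    (G.neighborSet v).ncard ≤ 2 * {b | G.Adj v b ∧ b ∈ B}.ncard := by
  have hf : (G.neighborSet v).Finite := Set.not_infinite.1 hv
  have h1 : {b | G.Adj v b ∧ p b}.ncard + {b | G.Adj v b ∧ ¬ p b}.ncard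
      = (G.neighborSet v).ncard := by
    rw [← Set.ncard_union_eq _ (hf.subset fun w hw => hw.1) (hf.subset fun w hw => hw.1)]
    · congr 1
      ext w
      simp only [Set.mem_union, Set.mem_ofPred_eq, SimpleGraph.mem_neighborSet]
      tauto
    · rw [Set.disjoint_left]
      rintro w ⟨-, h1⟩ ⟨-, h2⟩
      exact h2 h1
  have h2 : {b | G.Adj v b ∧ ¬ p b}.ncard ≤ {b | G.Adj v b ∧ b ∈ B}.ncard :=
    Set.ncard_le_ncard (fun b hb => ⟨hb.1, hB b hb.1 hb.2⟩) (hf.subset fun w hw => hw.1)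
  omega

/-- The dichotomy for bipartite components. -/
theorem dichE_tame {x u : V} {E : Set V} (hEI : ∀ v ∈ E, Inf G v) (hx : TmC G E x) (huE : u ∈ E)
    (hne : (comp G x ∩ G.neighborSet u).Nonempty) (S : Set V) (z : V → Bool) (huS : u ∉ S) :
    (∃ (Y : Set V) (f : V → Bool), Y ⊆ E \ S ∧ Y.Nonempty ∧
      ∀ z' : V → Bool, (∀ v ∈ S, z' v = z v) → (∀ v ∈ Y, z' v = f v) → ∀ p ∈ Y, SvC G z' x p) ∨
    ∃ (E' : Set V) (f : V → Bool), E'.Finite ∧
      ∀ z' : V → Bool, (∀ v, v ∈ S ∨ v ∈ E → z' v = z v) →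
        (∀ v ∈ E', v ∉ S → v ∉ E → z' v = f v) → SvC G z' x u := by
  obtain ⟨hxI, -, t, ht⟩ := hx
  have hCI : ∀ v ∈ comp G x, ¬ Inf G v := fun v hv => comp_not_inf hxI hv
  obtain ⟨y, hy, huy⟩ := hne
  have huy' : G.Adj u y := huy
  rw [or_iff_not_imp_right]
  intro h2
  push Not at h2
  let θ : Bool := xor (z u) (t y)
  have hθ : xor θ (t y) = z u := by
    show xor (xor (z u) (t y)) (t y) = z u
    cases z u <;> cases t y <;> rfl
  let zs : V → Bool := fun v => xor (!θ) (t v)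
  choose zz hz1 hz2 hz3 using fun F : Finset V => h2 (F : Set V) zs F.finite_toSet
  let ρ : Finset V → V → Bool := fun F v => if v ∈ comp G x then xor (!θ) (t v) else zz F v
  have r1 : ∀ F, ∀ v ∈ comp G x, ρ F v = xor (!θ) (t v) := fun F v hv => if_pos hv
  have r2 : ∀ F v, v ∉ comp G x → ρ F v = zz F v := fun F v hv => if_neg hv
  let M : Finset V → Set V := fun F => {v | ∃ A ⊆ comp G x, Fz G A (ρ F) ∧ v ∈ A}
  have hMX : ∀ F, M F ⊆ comp G x := by
    rintro F v ⟨A, h1, -, h3⟩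
    exact h1 h3
  have hMF : ∀ F, Fz G (M F) (ρ F) := by
    rintro F v ⟨A, h1, h2, h3⟩
    obtain ⟨k1, k2⟩ := h2 v h3
    refine ⟨k1, k2.trans (Nat.mul_le_mul_left 2 ?_)⟩
    refine Set.ncard_le_ncard ?_ ((Set.not_infinite.1 k1).subset fun w hw => hw.1)
    rintro b ⟨g1, g2, g3⟩
    exact ⟨g1, g2.imp_right fun h => ⟨A, h1, h2, h⟩, g3⟩
  have hMm : ∀ F, ∀ v ∈ comp G x, v ∉ M F →
      2 * {b | G.Adj v b ∧ ((Inf G b ∨ b ∈ M F) ∧ ρ F b ≠ ρ F v)}.ncard
        < (G.neighborSet v).ncard := by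
    intro F v hv hvM
    by_contra hcon
    push Not at hcon
    refine hvM ⟨insert v (M F), ?_, ?_, Set.mem_insert _ _⟩
    · rintro a (rfl | ha)
      · exact hv
      · exact hMX F ha
    · rintro a ha
      have haX : a ∈ comp G x := by
        rcases ha with rfl | ha
        · exact hv
        · exact hMX F ha
      have hmono : {b | G.Adj a b ∧ ((Inf G b ∨ b ∈ M F) ∧ ρ F b ≠ ρ F a)}.ncard
          ≤ {b | G.Adj a b ∧ (Inf G b ∨ b ∈ insert v (M F)) ∧ ρ F b ≠ ρ F a}.ncard := by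
        refine Set.ncard_le_ncard ?_ ((Set.not_infinite.1 (hCI a haX)).subset fun w hw => hw.1)
        rintro b ⟨g1, g2, g3⟩
        exact ⟨g1, g2.imp_right fun h => Set.mem_insert_of_mem _ h, g3⟩
      refine ⟨hCI a haX, ?_⟩
      rcases ha with rfl | ha
      · exact hcon.trans (Nat.mul_le_mul_left 2 hmono)
      · exact (hMF F a ha).2.trans (Nat.mul_le_mul_left 2 hmono)
  have hyM : ∀ F, y ∉ M F := by
    intro F hyM
    refine hz3 F ⟨M F, ρ F, hMX F, hMF F, fun w hw => r2 F w fun h => hCI w h hw, y, hyM, huy', ?_⟩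
    rw [r1 F y hy, hz1 F u (Or.inr huE), ← hθ]
    cases θ <;> cases t y <;> simp
  -- the limit
  let 𝒰 : Ultrafilter (Finset V) := Ultrafilter.of Filter.atTop
  have h𝒰 : (𝒰 : Filter (Finset V)) ≤ Filter.atTop := Ultrafilter.of_le _
  let Ms : Set V := {v | ∀ᶠ F in (𝒰 : Filter (Finset V)), v ∈ M F}
  let K : Set V := {v | v ∈ comp G x ∧ v ∉ Ms}
  have hyK : y ∈ K := by
    refine ⟨hy, fun h => ?_⟩
    obtain ⟨F, hF⟩ := h.exists
    exact hyM F hF
  have hK : ∀ v ∈ K, (G.neighborSet v).ncard ≤ 2 * {b | G.Adj v b ∧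
      b ∈ {b | (Inf G b ∧ (b ∈ S ∨ b ∈ E) ∧ z b ≠ xor θ (t v)) ∨ b ∈ K}}.ncard := by
    rintro v ⟨hv, hvM⟩
    have hvF : (G.neighborSet v).Finite := Set.not_infinite.1 (hCI v hv)
    have e1 : ∀ᶠ F in (𝒰 : Filter (Finset V)), v ∉ M F :=
      Ultrafilter.eventually_not.2 hvM
    have e2 : ∀ᶠ F in (𝒰 : Filter (Finset V)), ∀ b ∈ G.neighborSet v,
        (b ∉ M F → b ∉ Ms) ∧ (b ∉ S → b ∉ E → zz F b = zs b) := by
      rw [Filter.eventually_all_finite hvF]
      intro b _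
      have e3 : ∀ᶠ F in (𝒰 : Filter (Finset V)), b ∈ F :=
        h𝒰 (Filter.eventually_atTop.2 ⟨{b}, fun F hF => hF (Finset.mem_singleton_self b)⟩)
      have e4 : ∀ᶠ F in (𝒰 : Filter (Finset V)), (b ∉ M F → b ∉ Ms) := by
        by_cases hb : b ∈ Ms
        · exact Filter.Eventually.mono hb fun F hF h => absurd hF h
        · exact Filter.Eventually.of_forall fun F _ => hb
      filter_upwards [e3, e4] with F hF hF'
      exact ⟨hF', fun h1 h2 => hz2 F b hF h1 h2⟩
    obtain ⟨F, hF1, hF2⟩ := (e1.and e2).exists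
    refine ncard_compl_lt (hCI v hv) _ (hMm F v hv hF1) fun b hvb hb => ?_
    obtain ⟨k1, k2⟩ := hF2 b hvb
    rw [not_and_or, not_or, not_not] at hb
    by_cases hbI : Inf G b
    · have hbX : b ∉ comp G x := fun h => hCI b h hbI
      have hb2 : ρ F b = ρ F v := hb.resolve_left fun h => h.1 hbI
      rw [r1 F v hv, r2 F b hbX] at hb2
      left
      by_cases hSE : b ∈ S ∨ b ∈ E
      · refine ⟨hbI, hSE, ?_⟩
        rw [← hz1 F b hSE, hb2]
        cases θ <;> cases t v <;> simp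
      · exfalso
        rw [not_or] at hSE
        have htab := ht v hv b hvb hSE.2
        have h3 : xor (!θ) (t b) = xor (!θ) (t v) := (k2 hSE.1 hSE.2).symm.trans hb2
        revert htab h3
        cases θ <;> cases t v <;> cases t b <;> simp
    · right
      have hbX : b ∈ comp G x := by
        rcases comp_adj hv hvb with h | h
        · exact h
        · exact absurd h.1 hbI
      have hbE : b ∉ E := fun h => hbI (hEI b h)
      have htab := ht v hv b hvb hbE
      refine ⟨hbX, k1 ?_⟩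
      rcases hb with hb | hb
      · exact hb.2
      · exfalso
        rw [r1 F v hv, r1 F b hbX] at hb
        revert htab hb
        cases θ <;> cases t v <;> cases t b <;> simp
  -- frozen
  have hfr : ∀ z' : V → Bool, (∀ b, Inf G b → (b ∈ S ∨ b ∈ E) →
      (∃ v ∈ K, G.Adj v b ∧ z b ≠ xor θ (t v)) → z' b = z b) →
      Fz G K (fun v => if v ∈ K then xor θ (t v) else z' v) := by
    intro z' hz' a ha
    have haF := hCI a ha.1
    refine ⟨haF, (hK a ha).trans (Nat.mul_le_mul_left 2 ?_)⟩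
    refine Set.ncard_le_ncard ?_ ((Set.not_infinite.1 haF).subset fun w hw => hw.1)
    rintro b ⟨g1, ⟨g2, g3, g4⟩ | g2⟩
    · have hbK : b ∉ K := fun h => hCI b h.1 g2
      refine ⟨g1, Or.inl g2, ?_⟩
      dsimp only
      rw [if_pos ha, if_neg hbK, hz' b g2 g3 ⟨a, ha, g1, g4⟩]
      exact g4
    · have hbE : b ∉ E := fun h => hCI b g2.1 (hEI b h)
      have htab := ht a ha.1 b g1 hbE
      refine ⟨g1, Or.inr g2, ?_⟩
      dsimp only
      rw [if_pos ha, if_pos g2]
      revert htab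
      cases θ <;> cases t a <;> cases t b <;> simp
  have hKu : ∀ v ∈ K, G.Adj v u → z u = xor θ (t v) := by
    intro v hv hvu
    by_contra hne'
    refine hz3 ∅ ⟨K, fun v => if v ∈ K then xor θ (t v) else zz ∅ v, fun v hv => hv.1,
      hfr (zz ∅) fun b _ hb _ => hz1 ∅ b hb, fun w hw => if_neg fun h => hCI w h.1 hw,
      v, hv, hvu.symm, ?_⟩
    dsimp only
    rw [if_pos hv, hz1 ∅ u (Or.inr huE)]
    exact fun h => hne' h.symm
  refine ⟨{p | p ∈ E \ S ∧ (p = u ∨ ∃ v ∈ K, G.Adj v p ∧ z p ≠ xor θ (t v))}, fp u z,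
    fun p hp => hp.1, ⟨u, ⟨huE, huS⟩, Or.inl rfl⟩, fun z' h1 h3 p hp => ?_⟩
  refine ⟨K, fun v => if v ∈ K then xor θ (t v) else z' v, fun v hv => hv.1, hfr z' ?_,
    fun w hw => if_neg fun h => hCI w h.1 hw, ?_⟩
  · intro b hbI hbSE hb
    by_cases hbS : b ∈ S
    · exact h1 b hbS
    · have hbE := hbSE.resolve_left hbS
      rw [h3 b ⟨⟨hbE, hbS⟩, Or.inr hb⟩]
      refine fp_ne _ ?_
      rintro rfl
      obtain ⟨v, hv, hvb, hne'⟩ := hb
      exact hne' (hKu v hv hvb)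
  · have hp' := h3 p hp
    rcases hp.2 with rfl | ⟨v, hv, hvp, hne'⟩
    · refine ⟨y, hyK, huy', ?_⟩
      dsimp only
      rw [if_pos hyK, hp', fp_eq, hθ]
      simp
    · refine ⟨v, hv, hvp.symm, ?_⟩
      dsimp only
      have hpu : p ≠ u := by
        rintro rfl
        exact hne' (hKu v hv hvp)
      rw [if_pos hv, hp', fp_ne _ hpu]
      exact fun h => hne' h.symm

end UnfD
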