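import Pool.Agent.Work.MP_1aab6d_thin_helper61.Union2
import Pool.Agent.Work.MP_1aab6d_thin_helper61.TmC
import Pool.Agent.Work.MP_1aab6d_thin_helper61.Exc

/-!
# The main theorem, final form
-/

set_option autoImplicit false

namespace UnfD

open Classical UnfT UnfS

variable {V : Type*} {G : SimpleGraph V}

variable (G) in
/-- `x` is a vertex of finite degree, and each vertex of infinite degree has finitely many
neighbours in its component. -/
def Gae (x : V) : Prop := ¬ Inf G x ∧ ∀ w, Inf G w → (comp G x ∩ G.neighborSet w).Finite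

lemma Gae.fin {x w : V} (hx : Gae G x) (hw : Inf G w) : (comp G x ∩ G.neighborSet w).Finite :=
  hx.2 w hw

lemma Gae.of_mem {x a : V} (hx : Gae G x) (h : a ∈ comp G x) : Gae G a := by
  refine ⟨comp_not_inf hx.1 h, ?_⟩
  rw [comp_eq hx.1 h]
  exact hx.2

/-- Finite or thin components. -/
lemma need6 [Nonempty V] {u : V} (z : V → Bool)
    (h : {x | Gae G x ∧ rp G x = x ∧ SvC G z x u}.Infinite) (F : Set (Set V)) (hF : F.Finite)
    (hFL : ∀ A ∈ F, Lt G A) : ∃ (A : Set V) (ρ : V → Bool),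
      Lt G A ∧ Fz G A ρ ∧ (∀ x, Inf G x → ρ x = z x) ∧ (∀ B ∈ F, Disjoint A B) ∧
      ∃ y ∈ A, G.Adj u y ∧ ρ y ≠ z u := by
  obtain ⟨x, ⟨h1, h2, A, ρ, h3, h4, h5, h6⟩, h7⟩ :=
    (h.sdiff (hF.biUnion fun B hB => (hFL B hB).f4)).nonempty
  have hLt : Lt G A := Or.inr ⟨comp G x, h3, h1.2, Or.inr ⟨x, h1.1, rfl⟩⟩
  refine ⟨A, ρ, hLt, h4, h5, fun B hB => ?_, h6⟩
  rw [Set.disjoint_left]
  intro a ha haB
  exact h7 (Set.mem_biUnion hB ⟨h1.1, h2, a, haB, h3 ha⟩)

variable (G) in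
/-- The neighbour `y` of `u` is helpful. -/
def Hlp (E : Set V) (u y : V) : Prop :=
  Useful G u y ∨ ThC G y ∨ TmC G E y ∨ Fine G E u y

variable (G) in
/-- `u` has many helpful neighbours. -/
def Hl (u : V) : Prop :=
  ∀ E₀ : Set V, E₀.Finite → (∀ v ∈ E₀, Inf G v) → ∃ E : Set V, E₀ ⊆ E ∧
      E.Finite ∧ (∀ v ∈ E, Inf G v) ∧ {y | G.Adj u y ∧ Hlp G E u y}.Infinite

/-- **Main theorem, general form.** -/
theorem unfriendly_of_hlp [Countable V] (G : SimpleGraph V)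
    (h : {u | Inf G u ∧ ¬ Hl G u}.Finite) :
    ∃ c : V → Bool, Unfriendly G c := by
  rcases isEmpty_or_nonempty V with hV | hV
  · exact ⟨fun _ => false, fun v => (hV.false v).elim⟩
  let P : Set V := {u | (Inf G u ∧ Hl G u) ∧
    ¬ {y | G.Adj u y ∧ ¬ Inf G y ∧ bd G y ⊆ {u} ∧ (comp G y ∩ G.neighborSet u).Finite}.Infinite ∧
    ¬ (∃ y, Low G y ∧ (lc G y ∩ G.neighborSet u).Infinite) ∧
    ¬ {y | G.Adj u y ∧ Low G y ∧ (lc G y).Infinite ∧
      ∀ w, Inf G w → (lc G y ∩ G.neighborSet w).Finite}.Infinite}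
  let LE : V × V → Prop := fun t => ∃ x : V × V, Lk G t.1 t.2 x.1 x.2
  let E : Set (V × V) := {t | t.1 ∈ P ∧ G.Adj t.1 t.2 ∧ (Inf G t.2 ∨ LE t)}
  let b : V × V → V := fun t => if h : LE t then h.choose.1 else t.2
  let vv : V × V → V := fun t => if h : LE t then h.choose.2 else t.2
  let σ : V × V → Bool := fun t => if LE t then par (lg G (lc G t.2)) t.2 (vv t) else true
  have hLE : ∀ t, LE t → Lk G t.1 t.2 (b t) (vv t) := by
    intro t ht
    have e1 : b t = ht.choose.1 := dif_pos ht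
    have e2 : vv t = ht.choose.2 := dif_pos ht
    rw [e1, e2]; exact ht.choose_spec
  have hbI : ∀ t, Inf G t.2 → b t = t.2 ∧ σ t = true := by
    intro t ht
    have : ¬ LE t := fun ⟨x, hx⟩ => hx.2.1.not_inf ht
    exact ⟨dif_neg this, if_neg this⟩
  have hσ : ∀ t, LE t → σ t = par (lg G (lc G t.2)) t.2 (vv t) := fun t ht => if_pos ht
  have hPuse : ∀ u ∈ P, ∀ E : Set V, {y | G.Adj u y ∧ Hlp G E u y}.Infinite →
      {y | G.Adj u y ∧ (Inf G y ∨ LE (u, y))}.Infinite ∨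
      {y | G.Adj u y ∧ (ThC G y ∨ TmC G E y ∨ Fine G E u y)}.Infinite := by
    rintro u ⟨⟨hu, -⟩, n1, n2, n3⟩ E hE
    by_contra hcon
    push Not at hcon
    obtain ⟨hfin, hfin'⟩ := hcon
    refine hE ((((hfin.union (Set.not_infinite.1 n1)).union
      (Set.not_infinite.1 n3)).union hfin').subset ?_)
    rintro y ⟨hy1, hy2 | hy2⟩
    swap
    · exact Or.inr ⟨hy1, hy2⟩
    left
    have hlcu : Low G y → (lc G y ∩ G.neighborSet u).Finite := fun hy => by
      by_contra hinf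
      exact n2 ⟨y, hy, hinf⟩
    rcases hy2 with hy | ⟨g1, g2, g3⟩ | ⟨g1, g2⟩
    · exact Or.inl (Or.inl ⟨hy1, Or.inl hy⟩)
    · exact Or.inl (Or.inr ⟨hy1, g1, g2, g3⟩)
    · by_cases hinf : (lc G y).Infinite
      · by_cases hw : ∀ w, Inf G w → (lc G y ∩ G.neighborSet w).Finite
        · exact Or.inr ⟨hy1, g1, hinf, hw⟩
        · push Not at hw
          obtain ⟨w, hw1, hw2⟩ := hw
          obtain ⟨v, hv1, hv2⟩ := hw2.nonempty
          have hwu : w ≠ u := by
            rintro rfl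
            exact hw2 (hlcu g1)
          exact Or.inl (Or.inl ⟨hy1, Or.inr ⟨(w, v), hy1, g1, hlcu g1, hwu, hw1, hv1, hv2,
            Or.inr hw2⟩⟩)
      · obtain ⟨w, hw1, hw2, v, hv1, hv2⟩ := g2.resolve_left hinf
        exact Or.inl (Or.inl ⟨hy1, Or.inr ⟨(w, v), hy1, g1, hlcu g1, hw1, hw2, hv1, hv2,
          Or.inl (Set.not_infinite.1 hinf)⟩⟩)
  have hEab : ∀ t ∈ E, t.1 ≠ b t := by
    rintro t ⟨h1, h2, h3 | h3⟩
    · rw [(hbI t h3).1]; exact h2.ne
    · exact (hLE t h3).2.2.2.1.symm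
  let Sv : (V → Bool) → (V × V) ⊕ V → V → Prop := fun z t p =>
    Sum.elim (fun t => t ∈ E ∧ Inc Prod.fst b p t ∧ Sat Prod.fst b σ z t)
      (fun x => Gae G x ∧ rp G x = x ∧ SvC G z x p) t
  have hpair : ∀ u ∈ P, ∀ t ∈ E, Inc Prod.fst b u t → Dich Sv (Sum.inl t) u := by
    intro u hu t ht1 ht2 S z huS
    rcases dich_pair (σ := σ) (hEab t ht1) ht2 S z huS with ⟨Y, h1, h2, h3, h4⟩ | ⟨Ev, f, h1, h2⟩
    · exact Or.inl ⟨Y, h1, h2, h3, fun z' hz' p hp => ⟨ht1, h4 z' hz' p hp⟩⟩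
    · exact Or.inr ⟨Ev, f, h1, fun z' g1 g2 => ⟨ht1, h2 z' g1 g2⟩⟩
  have hcomp : ∀ u ∈ P, ∀ E : Set V, (∀ v ∈ E, Inf G v) → u ∈ E → ∀ y, G.Adj u y →
      (ThC G y ∨ TmC G E y ∨ Fine G E u y) →
      Gae G y ∧ DichE Sv (Sum.inr (rp G y)) u E := by
    intro u hu E hEI huE y huy hy
    have hG : Gae G y := by
      rcases hy with h | h | h
      · exact ⟨h.1, h.2.2⟩
      · exact ⟨h.1, h.2.1⟩
      · exact ⟨h.1, fun w _ => h.2.1.subset Set.inter_subset_left⟩
    have e1 := rp_mem (G := G) y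
    have e2 : y ∈ comp G (rp G y) := comp_symm hG.1 e1
    have e3 : comp G (rp G y) = comp G y := comp_eq hG.1 e1
    have hG' := hG.of_mem e1
    have hr : rp G (rp G y) = rp G y := rp_eq hG.1 e1
    have hne : (comp G (rp G y) ∩ G.neighborSet u).Nonempty := ⟨y, e2, huy⟩
    have conv : ∀ z p, SvC G z (rp G y) p → Sv z (Sum.inr (rp G y)) p := fun z p h =>
      ⟨hG', hr, h⟩
    refine ⟨hG, ?_⟩
    rcases hy with h | h | h
    · refine Dich.dichE (fun S z huS => ?_) huE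
      rcases dich_comp (h.of_mem e1) hu.1.1 hne S z huS with ⟨Y, h1, h2, h3, h4⟩ | ⟨Ev, f, h1, h2⟩
      · exact Or.inl ⟨Y, h1, h2, h3, fun z' hz' p hp => conv _ _ (h4 z' hz' p hp)⟩
      · exact Or.inr ⟨Ev, f, h1, fun z' g1 g2 => conv _ _ (h2 z' g1 g2)⟩
    · intro S z huS
      have hB : TmC G E (rp G y) := ⟨hG'.1, by rw [e3]; exact h.2.1, by rw [e3]; exact h.2.2⟩
      rcases dichE_tame hEI hB huE hne S z huS with ⟨Y, f, h1, h2, h3⟩ | ⟨Ev, f, h1, h2⟩
      · exact Or.inl ⟨Y, f, h1, h2, fun z' g1 g2 p hp => conv _ _ (h3 z' g1 g2 p hp)⟩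
      · exact Or.inr ⟨Ev, f, h1, fun z' g1 g2 => conv _ _ (h2 z' g1 g2)⟩
    · have hR : Rob G E (comp G (rp G y)) u := by
        rw [e3]
        rcases h.2.2 with hF | hF
        · exact rob_thin h.1 h.2.1 hu.1.1 huy huE hF
        · exact rob_free h.1 h.2.1 hu.1.1 huy huE hF
      intro S z huS
      rcases dich_rob hG'.1 (by rw [e3]; exact h.2.1) huE hR S z huS with
        ⟨Y, f, h1, h2, h3⟩ | ⟨Ev, f, h1, h2⟩
      · exact Or.inl ⟨Y, f, h1, h2, fun z' g1 g2 p hp => conv _ _ (h3 z' g1 g2 p hp)⟩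
      · exact Or.inr ⟨Ev, f, h1, fun z' g1 g2 => conv _ _ (h2 z' g1 g2)⟩
  obtain ⟨z, -, hz⟩ := asel2 (P := P) (Sv := Sv)
    (by
      intro u hu E₀ hE₀ hE₀P
      obtain ⟨E1, hE1, hE1f, hE1I, hE1i⟩ := hu.1.2 (insert u E₀) (hE₀.insert u) (by
        rintro v (rfl | hv)
        · exact hu.1.1
        · exact (hE₀P hv).1.1)
      have huE1 : u ∈ E1 := hE1 (Set.mem_insert _ _)
      refine ⟨E1, hE1f, (Set.subset_insert _ _).trans hE1, ?_⟩
      rcases hPuse u hu E1 hE1i with hc | hc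
      · have hinj : Set.InjOn (fun y : V => (Sum.inl (u, y) : (V × V) ⊕ V))
            {y | G.Adj u y ∧ (Inf G y ∨ LE (u, y))} := fun x _ y _ h => by
          have := Sum.inl.inj h
          exact congrArg Prod.snd this
        refine (hc.image hinj).mono ?_
        rintro _ ⟨y, hy, rfl⟩
        exact (hpair u hu _ ⟨hu, hy.1, hy.2⟩ (Or.inl rfl)).dichE huE1
      · intro hfin
        have hfin2 : (Sum.inr ⁻¹' {t | DichE Sv t u E1} : Set V).Finite :=
          hfin.preimage (Sum.inr_injective.injOn)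
        refine hc ((hfin2.biUnion (t := fun x => {y | y ∈ comp G x ∩ G.neighborSet u ∧ Gae G x})
          fun x _ => ?_).subset ?_)
        · by_cases hx : Gae G x
          · exact (hx.fin hu.1.1).subset fun y hy => hy.1
          · refine Set.finite_empty.subset fun y hy => absurd hy.2 hx
        · rintro y ⟨h1, h2⟩
          obtain ⟨k1, k2⟩ := hcomp u hu E1 hE1I huE1 y h1 h2
          have e1 := rp_mem (G := G) y
          have e2 : y ∈ comp G (rp G y) := comp_symm k1.1 e1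
          exact Set.mem_biUnion (x := rp G y) k2 ⟨⟨e2, h1⟩, k1.of_mem e1⟩)
    (fun _ => false)
  refine unfriendly_of_pieces' (z := z) h (fun u hu => hu.1) fun u hu hX => ?_
  have hHl : Hl G u := by
    by_contra hn
    exact hX ⟨hu, hn⟩
  by_cases c1 : {y | G.Adj u y ∧ ¬ Inf G y ∧ bd G y ⊆ {u} ∧
      (comp G y ∩ G.neighborSet u).Finite}.Infinite
  · exact Or.inr (need1 hu z c1)
  by_cases c2 : ∃ y, Low G y ∧ (lc G y ∩ G.neighborSet u).Infinite
  · obtain ⟨y, hy1, hy2⟩ := c2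
    exact Or.inr (need2 hu z hy1 hy2)
  by_cases c3 : {y | G.Adj u y ∧ Low G y ∧ (lc G y).Infinite ∧
      ∀ w, Inf G w → (lc G y ∩ G.neighborSet w).Finite}.Infinite
  · exact Or.inr (need3 hu z c3)
  have huP : u ∈ P := ⟨⟨hu, hHl⟩, c1, c2, c3⟩
  have hz' : {t | t ∈ E ∧ Inc Prod.fst b u t ∧ Sat Prod.fst b σ z t}.Infinite ∨
      {x | Gae G x ∧ rp G x = x ∧ SvC G z x u}.Infinite := by
    by_contra hcon
    push Not at hcon
    refine hz u huP (((hcon.1.image Sum.inl).union (hcon.2.image Sum.inr)).subset ?_)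
    rintro (t | x) ht
    · exact Or.inl ⟨t, ht, rfl⟩
    · exact Or.inr ⟨x, ht, rfl⟩
  rcases hz' with hz' | hz'
  swap
  · exact Or.inr (need6 z hz')
  rcases inf_or (p := fun t => Inf G t.2) (q := fun t => LE t) hz'
    (fun t ht => ht.1.2.2) with hc | hc
  · left
    intro hfin
    refine hc ((((Set.finite_singleton u).prod hfin).union
      (hfin.prod (Set.finite_singleton u))).subset ?_)
    rintro ⟨t1, t2⟩ ⟨⟨⟨h1, h2, h3⟩, h4, h5⟩, h6⟩
    have e := hbI _ h6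
    unfold Sat at h5
    rw [e.1, e.2] at h5
    dsimp only at h1 h2 h4 h5 h6
    have hne : z t2 ≠ z t1 := by
      rw [h5]; cases z t1 <;> simp
    rcases h4 with h4 | h4
    · left
      dsimp only at h4
      subst h4
      exact ⟨rfl, h2, h6, hne⟩
    · right
      rw [e.1] at h4
      dsimp only at h4
      subst h4
      exact ⟨⟨h2.symm, h1.1.1, hne.symm⟩, rfl⟩
  · right
    intro F hF hFL
    have hbad : {t : V × V | (t.1 = u ∨ b t = u) ∧ LE t ∧ ∃ B ∈ F, (B ∩ lc G t.2).Nonempty}.Finite := by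
      have f : ∀ B ∈ F, {y | G.Adj u y ∧ Low G y ∧ (lc G y ∩ G.neighborSet u).Finite ∧
          (B ∩ lc G y).Nonempty}.Finite := fun B hB => (hFL B hB).f3 hu
      have f' := hF.biUnion f
      have f'' : (⋃ v ∈ {v | v ∈ (⋃ B ∈ F, {y | G.Adj u y ∧ Low G y ∧
          (lc G y ∩ G.neighborSet u).Finite ∧ (B ∩ lc G y).Nonempty}) ∧ (lc G v).Finite},
          ⋃ y ∈ lc G v, (G.neighborSet y ×ˢ {y} : Set (V × V))).Finite := by
        refine Set.Finite.biUnion (f'.subset fun v hv => hv.1) ?_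
        rintro v ⟨hv1, hv2⟩
        obtain ⟨B, hB, hv3⟩ := Set.mem_iUnion₂.1 hv1
        refine hv2.biUnion fun y hy => ?_
        exact (Set.not_infinite.1 (lc_low hv3.2.1 hy).not_inf).prod (Set.finite_singleton y)
      refine (((Set.finite_singleton u).prod f').union f'').subset ?_
      rintro ⟨t1, t2⟩ ⟨h1, h2, B, hB, h3⟩
      obtain ⟨g1, g2, g3, g4, g5, g6, g7, g8⟩ := hLE _ h2
      dsimp only at h1 h3 g1 g2 g3 g4 g6 g8
      rcases h1 with h1 | h1
      · subst h1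
        exact Or.inl ⟨rfl, Set.mem_biUnion hB ⟨g1, g2, g3, h3⟩⟩
      · right
        rw [h1] at g5 g7 g8
        have hlf : (lc G t2).Finite := by
          rcases g8 with g8 | g8
          · exact g8
          · exact absurd ⟨t2, g2, g8⟩ c2
        have he := lc_eq g2 g6
        refine Set.mem_biUnion (x := vv (t1, t2)) ⟨Set.mem_biUnion hB ⟨g7, lc_low g2 g6, ?_, ?_⟩, ?_⟩
          (Set.mem_biUnion (x := t2) ?_ ⟨g1.symm, rfl⟩)
        · rw [he]; exact hlf.subset Set.inter_subset_left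
        · rw [he]; exact h3
        · rw [he]; exact hlf
        · rw [he]; exact mem_lc_self t2
    obtain ⟨t, ⟨⟨h1, h2, h3⟩, h4⟩, h5⟩ := (hc.sdiff hbad).nonempty
    have hdis : ∀ B ∈ F, ∀ x ∈ lc G t.2, x ∉ B := by
      intro B hB x hx hxB
      exact h5 ⟨h2, h4, B, hB, x, hxB, hx⟩
    obtain ⟨g1, g2, g3, g4, g5, g6, g7, g8⟩ := hLE _ h4
    have hsub : ∀ x, (lg G (lc G t.2)).Reachable t.2 x → x ∈ lc G t.2 := fun x hx =>
      lg_reach_mem (mem_lc_self _) hx
    obtain ⟨A, ρ, k1, k2, k3, k4, k5, k6, k7, k8⟩ := path_piece (H := lg G (lc G t.2)) (z := z)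
      (u := t.1) (w := b t) (y := t.2) (v := vv t) (lg_le _) (fun x hx => lc_low g2 (hsub x hx))
      h1.1.1.1 g5 g1 g7 (lc_reach g6) (by
        have := h3
        unfold Sat at this
        rw [hσ t h4] at this
        exact this) (Or.inl g4.symm)
    refine ⟨A, ρ, Or.inl k1, k3, k4, fun B hB => ?_, ?_⟩
    · rw [Set.disjoint_left]
      intro x hx hxB
      exact hdis B hB x (hsub x (k2 x hx)) hxB
    · rcases h2 with h2 | h2
      · have h2' : t.1 = u := h2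
        rw [← h2']
        exact ⟨t.2, k5, g1, k7⟩
      · rw [← h2]
        exact ⟨vv t, k6, g7, k8⟩

end UnfD
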